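import Mathlib

/-! # The rank comparison for graph supported alternating matrices in characteristic two -/

set_option autoImplicit false

namespace Pool.Agent.Lib.MP_0c183c_h75B

open Matrix Finset

/-- A symmetric matrix with zero diagonal, supported on the edges of `G`. -/
structure IsAltOn {V K : Type*} [Zero K] (G : SimpleGraph V) (A : Matrix V V K) : Prop where
  symm : ∀ u v, A u v = A v u
  diag : ∀ v, A v v = 0
  supp : ∀ u v, A u v ≠ 0 → G.Adj u v

lemma det_odd {ι R : Type*} [Fintype ι] [DecidableEq ι] [CommRing R] [CharP R 2]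
    (M : Matrix ι ι R) (hs : ∀ u v, M u v = M v u) (h0 : ∀ v, M v v = 0)
    (hodd : ¬ 2 ∣ Fintype.card ι) : M.det = 0 := by
  rw [Matrix.det_apply]
  have e : ∀ (s : ℤˣ) (a : R), s • a = a := by
    intro s a
    rcases Int.units_eq_one_or s with h | h
    · rw [h, one_smul]
    · rw [h]
      have : (-1 : ℤˣ) • a = -a := by simp [Units.smul_def]
      rw [this, CharTwo.neg_eq]
  simp only [e]
  have hp : ∀ σ : Equiv.Perm ι, ∏ i, M (σ⁻¹ i) i = ∏ i, M (σ i) i := by
    intro σ
    rw [← Equiv.prod_comp σ (fun i => M (σ⁻¹ i) i)]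
    refine prod_congr rfl fun i _ => ?_
    have : σ⁻¹ (σ i) = i := Equiv.symm_apply_apply σ i
    rw [this, hs]
  refine sum_involution (fun σ _ => σ⁻¹) ?_ ?_ (fun _ _ => mem_univ _) (fun σ _ => inv_inv σ)
  · intro σ _
    rw [hp, CharTwo.add_self_eq_zero]
  · intro σ _ hσ hfix
    apply hσ
    have : Fact (Nat.Prime 2) := ⟨Nat.prime_two⟩
    have h2 : σ ^ 2 ^ 1 = 1 := by
      rw [pow_one, pow_two]
      nth_rewrite 1 [← hfix]
      exact inv_mul_cancel σ
    obtain ⟨a, ha⟩ := Equiv.Perm.exists_fixed_point_of_prime hodd h2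
    exact prod_eq_zero (mem_univ a) (by rw [ha, h0])

/-- A nonzero vector supported on an odd set and killed by the matrix on this set. -/
lemma exists_odd {V K : Type*} [Fintype V] [DecidableEq V] [Field K] [CharP K 2]
    (A : Matrix V V K) (hs : ∀ u v, A u v = A v u) (h0 : ∀ v, A v v = 0)
    (C : Finset V) (hC : ¬ 2 ∣ C.card) :
    ∃ g : V → K, g ≠ 0 ∧ (∀ v ∉ C, g v = 0) ∧ ∀ v ∈ C, (A.mulVec g) v = 0 := by
  have hd : (A.submatrix (fun c : C => (c : V)) (fun c : C => (c : V))).det = 0 := by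
    apply det_odd
    · intro u v
      exact hs _ _
    · intro v
      exact h0 _
    · simpa using hC
  obtain ⟨w, hw0, hw⟩ := Matrix.exists_mulVec_eq_zero_iff.mpr hd
  refine ⟨fun v => if h : v ∈ C then w ⟨v, h⟩ else 0, ?_, ?_, ?_⟩
  · intro h
    apply hw0
    ext ⟨v, hv⟩
    have := congrFun h v
    simpa [hv] using this
  · intro v hv
    simp [hv]
  · intro v hv
    have h1 := congrFun hw ⟨v, hv⟩
    simp only [Matrix.mulVec, dotProduct, Matrix.submatrix_apply, Pi.zero_apply] at h1 ⊢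
    rw [← Finset.sum_subset (Finset.subset_univ C)
      (fun x _ hx => by rw [dif_neg hx, mul_zero])]
    rw [← Finset.sum_coe_sort C, ← h1]
    refine Finset.sum_congr rfl fun x _ => ?_
    rw [dif_pos x.2]

/-- Vectors vanishing on `C₂` whose image vanishes off `C₁`. -/
def Null {V K : Type*} [Fintype V] [Field K] (A : Matrix V V K) (C₁ C₂ : Finset V) :
    Submodule K (V → K) where
  carrier := {g | (∀ v ∈ C₂, g v = 0) ∧ ∀ v ∉ C₁, (A.mulVec g) v = 0}
  zero_mem' := by simp
  add_mem' := by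
    rintro a b ⟨ha, ha'⟩ ⟨hb, hb'⟩
    refine ⟨fun v hv => by simp [ha v hv, hb v hv], fun v hv => ?_⟩
    rw [Matrix.mulVec_add, Pi.add_apply, ha' v hv, hb' v hv, add_zero]
  smul_mem' := by
    rintro c a ⟨ha, ha'⟩
    refine ⟨fun v hv => by simp [ha v hv], fun v hv => ?_⟩
    rw [Matrix.mulVec_smul, Pi.smul_apply, ha' v hv, smul_zero]

lemma mem_null {V K : Type*} [Fintype V] [Field K] {A : Matrix V V K} {C₁ C₂ : Finset V}
    {g : V → K} : g ∈ Null A C₁ C₂ ↔ (∀ v ∈ C₂, g v = 0) ∧ ∀ v ∉ C₁, (A.mulVec g) v = 0 :=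
  Iff.rfl

section

variable {V K : Type*} [Fintype V] [DecidableEq V] [Field K]

/-- The hypotheses on the Schur complement. -/
structure Data (G : SimpleGraph V) (A P : Matrix V V K) (C₁ C₂ : Finset V) (s : V → V → K)
    (ρ : ℕ) : Prop where
  alt : IsAltOn G A
  AP : A * P = 1
  ex : ∃ (y : Fin ρ → V) (ψ : Fin ρ → V → K), (∀ i, y i ∈ C₂) ∧
    ∀ u v, P u v = s u v + ∑ i, P u (y i) * ψ i v
  key : ∀ u ∈ C₁, ∀ u' ∈ C₂, ∀ v w, G.Adj v w → s u v * s w u' = s u w * s v u'
  hC₂ : ∀ v, v ∈ C₂ ↔ ∀ u ∈ C₁, s u v = 0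
  hC₁ : ∀ u, u ∈ C₁ ↔ ∀ v ∈ C₂, s u v = 0

variable {G : SimpleGraph V} {A P : Matrix V V K} {C₁ C₂ : Finset V} {s : V → V → K} {ρ : ℕ}

/-- The graph on `O`, the complement of `C₁ ∪ C₂`. -/
def grO (G : SimpleGraph V) (C₁ C₂ : Finset V) : SimpleGraph V where
  Adj v w := G.Adj v w ∧ (v ∉ C₁ ∧ v ∉ C₂) ∧ (w ∉ C₁ ∧ w ∉ C₂)
  symm := ⟨fun _ _ h => ⟨h.1.symm, h.2.2, h.2.1⟩⟩
  loopless := ⟨fun _ h => G.loopless.irrefl _ h.1⟩

lemma Data.PA (D : Data G A P C₁ C₂ s ρ) : P * A = 1 := mul_eq_one_comm.mp D.AP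

lemma Data.Psymm (D : Data G A P C₁ C₂ s ρ) : ∀ u v, P u v = P v u := by
  have hA : A.transpose = A := by
    ext u v
    exact D.alt.symm v u
  have h1 : P.transpose * A = 1 := by
    have := congrArg Matrix.transpose D.AP
    rwa [Matrix.transpose_mul, hA, Matrix.transpose_one] at this
  have h2 : P.transpose = P := by
    calc P.transpose = P.transpose * (A * P) := by rw [D.AP, Matrix.mul_one]
      _ = P := by rw [← Matrix.mul_assoc, h1, Matrix.one_mul]
  intro u v
  conv_lhs => rw [← h2]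
  rfl

/-- Neighbours of `C₁ \ C₂` lie in `C₁`. -/
lemma Data.nbr₁ (D : Data G A P C₁ C₂ s ρ) {v w : V} (h : G.Adj v w) (hw : w ∈ C₁)
    (hw' : w ∉ C₂) : v ∈ C₁ := by
  rw [D.hC₂] at hw'
  push Not at hw'
  obtain ⟨u, hu, hne⟩ := hw'
  rw [D.hC₁]
  intro u' hu'
  have h1 := D.key u hu u' hu' v w h
  rw [(D.hC₁ w).mp hw u' hu', mul_zero] at h1
  rcases mul_eq_zero.mp h1.symm with h2 | h2
  · exact absurd h2 hne
  · exact h2

/-- Neighbours of `C₂ \ C₁` lie in `C₂`. -/
lemma Data.nbr₂ (D : Data G A P C₁ C₂ s ρ) {v w : V} (h : G.Adj v w) (hw : w ∈ C₂)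
    (hw' : w ∉ C₁) : v ∈ C₂ := by
  rw [D.hC₁] at hw'
  push Not at hw'
  obtain ⟨u', hu', hne⟩ := hw'
  rw [D.hC₂]
  intro u hu
  have h1 := D.key u hu u' hu' v w h
  rw [(D.hC₂ w).mp hw u hu, zero_mul] at h1
  rcases mul_eq_zero.mp h1 with h2 | h2
  · exact h2
  · exact absurd h2 hne

/-- The value formula for vectors in `Null`. -/
lemma Data.value (D : Data G A P C₁ C₂ s ρ) {g : V → K} (hg : g ∈ Null A C₁ C₂) (v : V) :
    g v = ∑ u ∈ C₁, (A.mulVec g) u * s u v := by
  obtain ⟨y, ψ, hy, hP⟩ := D.ex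
  obtain ⟨hg1, hg2⟩ := hg
  have e1 : ∀ v, g v = ∑ u, (A.mulVec g) u * P u v := by
    intro v
    have : g = P.mulVec (A.mulVec g) := by rw [Matrix.mulVec_mulVec, D.PA, Matrix.one_mulVec]
    conv_lhs => rw [this]
    simp only [Matrix.mulVec, dotProduct]
    exact Finset.sum_congr rfl fun u _ => by rw [D.Psymm v u, mul_comm]
  have e2 : g v = ∑ u, (A.mulVec g) u * s u v := by
    rw [e1 v]
    have e3 : ∀ u, (A.mulVec g) u * P u v = (A.mulVec g) u * s u v +
        ∑ i, ((A.mulVec g) u * P u (y i)) * ψ i v := by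
      intro u
      rw [hP u v, mul_add, Finset.mul_sum]
      congr 1
      exact Finset.sum_congr rfl fun i _ => by ring
    simp only [e3, Finset.sum_add_distrib]
    rw [Finset.sum_comm]
    simp only [← Finset.sum_mul, ← e1]
    rw [add_eq_left]
    exact Finset.sum_eq_zero fun i _ => by rw [hg1 _ (hy i), zero_mul]
  rw [e2]
  symm
  apply Finset.sum_subset (Finset.subset_univ _)
  intro u _ hu
  rw [hg2 u hu, zero_mul]

lemma Data.prop (D : Data G A P C₁ C₂ s ρ) {g : V → K} (hg : g ∈ Null A C₁ C₂) {v w : V}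
    (h : (grO G C₁ C₂).Adj v w) (h0 : g w = 0) : g v = 0 := by
  have hw := h.2.2.1
  rw [D.hC₁] at hw
  push Not at hw
  obtain ⟨u', hu', hne⟩ := hw
  have h1 : g v * s w u' = g w * s v u' := by
    rw [D.value hg v, D.value hg w, Finset.sum_mul, Finset.sum_mul]
    refine Finset.sum_congr rfl fun u hu => ?_
    rw [mul_assoc, D.key u hu u' hu' v w h.1, mul_assoc]
  rw [h0, zero_mul] at h1
  rcases mul_eq_zero.mp h1 with h2 | h2
  · exact h2
  · exact absurd h2 hne

lemma Data.prop' (D : Data G A P C₁ C₂ s ρ) {g : V → K} (hg : g ∈ Null A C₁ C₂) {v w : V}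
    (h : (grO G C₁ C₂).Reachable v w) (h0 : g w = 0) : g v = 0 := by
  obtain ⟨p⟩ := h
  induction p with
  | nil => exact h0
  | cons h p ih => exact D.prop hg h (ih h0)

omit [Fintype V] [DecidableEq V] in
lemma reach_O {v w : V} (h : (grO G C₁ C₂).Reachable v w) (hv : v ∉ C₁ ∧ v ∉ C₂) :
    w ∉ C₁ ∧ w ∉ C₂ := by
  obtain ⟨p⟩ := h
  induction p with
  | nil => exact hv
  | cons h p ih => exact ih h.2.2

open Classical in
/-- The component of `t`. -/
noncomputable def comp (G : SimpleGraph V) (C₁ C₂ : Finset V) (t : V) : Finset V :=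
  univ.filter fun v => (grO G C₁ C₂).Reachable v t

lemma mem_comp {t v : V} : v ∈ comp G C₁ C₂ t ↔ (grO G C₁ C₂).Reachable v t := by
  classical
  simp [comp]

lemma comp_O {t v : V} (ht : t ∉ C₁ ∧ t ∉ C₂) (hv : v ∈ comp G C₁ C₂ t) : v ∉ C₁ ∧ v ∉ C₂ :=
  reach_O (mem_comp.mp hv).symm ht

/-- A vector supported on a component, killed on the component, is in `Null`. -/
lemma Data.mem_of_comp {L : Type*} [Field L] {Z : Matrix V V L} (hZ : IsAltOn G Z)
    (D : Data G A P C₁ C₂ s ρ) {t : V}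
    (ht : t ∉ C₁ ∧ t ∉ C₂) {h : V → L} (h1 : ∀ v ∉ comp G C₁ C₂ t, h v = 0)
    (h2 : ∀ v ∈ comp G C₁ C₂ t, (Z.mulVec h) v = 0) : h ∈ Null Z C₁ C₂ := by
  refine ⟨fun v hv => h1 v fun hc => (comp_O ht hc).2 hv, fun v hv => ?_⟩
  by_cases hc : v ∈ comp G C₁ C₂ t
  · exact h2 v hc
  simp only [Matrix.mulVec, dotProduct]
  refine Finset.sum_eq_zero fun w _ => ?_
  by_cases hw : w ∈ comp G C₁ C₂ t
  · have hwO := comp_O ht hw
    by_cases hz : Z v w = 0
    · rw [hz, zero_mul]
    · exfalso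
      have hadj := hZ.supp v w hz
      by_cases hv2 : v ∈ C₂
      · exact hwO.2 (D.nbr₂ hadj.symm hv2 hv)
      · apply hc
        rw [mem_comp]
        have : (grO G C₁ C₂).Adj v w := ⟨hadj, ⟨hv, hv2⟩, hwO⟩
        exact this.reachable.trans (mem_comp.mp hw)
  · rw [h1 w hw, mul_zero]

lemma Data.odd [CharP K 2] (D : Data G A P C₁ C₂ s ρ) {t : V} (ht : t ∉ C₁ ∧ t ∉ C₂) {g : V → K}
    (hg : g ∈ Null A C₁ C₂) (hgt : g t ≠ 0) : ¬ 2 ∣ (comp G C₁ C₂ t).card := by
  intro h2
  set C := comp G C₁ C₂ t with hC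
  have htC : t ∈ C := mem_comp.mpr (SimpleGraph.Reachable.refl t)
  have hc' : ¬ 2 ∣ (C.erase t).card := by
    have := Finset.card_erase_add_one htC
    omega
  obtain ⟨h, h0, hsup, hker⟩ := exists_odd A D.alt.symm D.alt.diag (C.erase t) hc'
  -- the restriction of `g`
  have hgC : ∀ v ∈ C, ∑ w ∈ C, A v w * g w = 0 := by
    intro v hv
    have hvO := comp_O ht hv
    have h3 := hg.2 v hvO.1
    rw [← h3]
    simp only [Matrix.mulVec, dotProduct]
    apply Finset.sum_subset (Finset.subset_univ _)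
    intro w _ hw
    by_cases hz : A v w = 0
    · rw [hz, zero_mul]
    have hadj := D.alt.supp v w hz
    by_cases hw2 : w ∈ C₂
    · rw [hg.1 w hw2, mul_zero]
    exfalso
    by_cases hw1 : w ∈ C₁
    · exact hvO.1 (D.nbr₁ hadj hw1 hw2)
    · apply hw
      rw [hC, mem_comp]
      have : (grO G C₁ C₂).Adj w v := ⟨hadj.symm, ⟨hw1, hw2⟩, hvO⟩
      exact this.reachable.trans (mem_comp.mp hv)
  have hsupC : ∀ v ∉ C, h v = 0 := fun v hv => hsup v fun hv' => hv (Finset.mem_of_mem_erase hv')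
  have hAh : ∀ v, (A.mulVec h) v = ∑ w ∈ C, A v w * h w := by
    intro v
    simp only [Matrix.mulVec, dotProduct]
    symm
    apply Finset.sum_subset (Finset.subset_univ _)
    intro w _ hw
    rw [hsupC w hw, mul_zero]
  have hsum : ∑ v ∈ C, g v * (A.mulVec h) v = 0 := by
    simp only [hAh, Finset.mul_sum]
    rw [Finset.sum_comm]
    refine Finset.sum_eq_zero fun w hw => ?_
    have : ∑ v ∈ C, g v * (A v w * h w) = (∑ v ∈ C, A w v * g v) * h w := by
      rw [Finset.sum_mul]
      exact Finset.sum_congr rfl fun v _ => by rw [D.alt.symm v w]; ring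
    rw [this, hgC w hw, zero_mul]
  have hAt : (A.mulVec h) t = 0 := by
    rw [← Finset.add_sum_erase C _ htC, Finset.sum_eq_zero (s := C.erase t), add_zero] at hsum
    · rcases mul_eq_zero.mp hsum with h4 | h4
      · exact absurd h4 hgt
      · exact h4
    · intro v hv
      rw [hker v hv, mul_zero]
  have hmem : h ∈ Null A C₁ C₂ := by
    apply D.mem_of_comp D.alt ht hsupC
    intro v hv
    by_cases hvt : v = t
    · rw [hvt, hAt]
    · exact hker v (Finset.mem_erase.mpr ⟨hvt, hv⟩)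
  have hht : h t = 0 := hsup t (Finset.notMem_erase t C)
  apply h0
  ext v
  by_cases hv : v ∈ C
  · exact D.prop' hmem (mem_comp.mp hv) hht
  · exact hsupC v hv

/-- Representatives of the components. -/
noncomputable def rep (G : SimpleGraph V) (C₁ C₂ : Finset V) (v : V) : V :=
  ((grO G C₁ C₂).connectedComponentMk v).out

omit [Fintype V] [DecidableEq V] in
lemma rep_reach (v : V) : (grO G C₁ C₂).Reachable (rep G C₁ C₂ v) v := by
  apply SimpleGraph.ConnectedComponent.exact
  exact Quot.out_eq _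

omit [Fintype V] [DecidableEq V] in
lemma rep_eq {v w : V} (h : (grO G C₁ C₂).Reachable v w) : rep G C₁ C₂ v = rep G C₁ C₂ w := by
  unfold rep
  rw [SimpleGraph.ConnectedComponent.sound h]

open Classical in
/-- The index set. -/
noncomputable def idx (G : SimpleGraph V) (A : Matrix V V K) (C₁ C₂ : Finset V) : Finset V :=
  univ.filter fun v => v ∉ C₂ ∧ (v ∈ C₁ ∨ (v ∉ C₁ ∧ rep G C₁ C₂ v = v ∧
    ∃ g ∈ Null A C₁ C₂, g v ≠ 0))

lemma mem_idx {v : V} : v ∈ idx G A C₁ C₂ ↔ v ∉ C₂ ∧ (v ∈ C₁ ∨ (v ∉ C₁ ∧ rep G C₁ C₂ v = v ∧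
    ∃ g ∈ Null A C₁ C₂, g v ≠ 0)) := by
  simp [idx]

lemma Data.upper (D : Data G A P C₁ C₂ s ρ) :
    Module.finrank K (Null A C₁ C₂) ≤ (idx G A C₁ C₂).card := by
  let f : Null A C₁ C₂ →ₗ[K] (idx G A C₁ C₂ → K) :=
    { toFun := fun g t => (g : V → K) t
      map_add' := fun a b => rfl
      map_smul' := fun a b => rfl }
  have hf : Function.Injective f := by
    rw [← LinearMap.ker_eq_bot, LinearMap.ker_eq_bot']
    rintro ⟨g, hg⟩ h
    have h' : ∀ t ∈ idx G A C₁ C₂, g t = 0 := fun t ht => congrFun h ⟨t, ht⟩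
    have : g = 0 := by
      ext v
      by_cases hv2 : v ∈ C₂
      · exact hg.1 v hv2
      by_cases hv1 : v ∈ C₁
      · exact h' v (mem_idx.mpr ⟨hv2, Or.inl hv1⟩)
      have hr : (grO G C₁ C₂).Reachable (rep G C₁ C₂ v) v := rep_reach v
      have hO := reach_O hr.symm (And.intro hv1 hv2)
      apply D.prop' hg hr.symm
      by_contra hne
      apply hne
      apply h'
      rw [mem_idx]
      exact ⟨hO.2, Or.inr ⟨hO.1, rep_eq hr, g, hg, hne⟩⟩
    exact Subtype.ext this
  have := LinearMap.finrank_le_finrank_of_injective hf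
  simpa using this

lemma Data.lower [CharP K 2] {L : Type*} [Field L] [CharP L 2] {Z : Matrix V V L}
    (hZ : IsAltOn G Z) (D : Data G A P C₁ C₂ s ρ) :
    (idx G A C₁ C₂).card ≤ Module.finrank L (Null Z C₁ C₂) := by
  have hk : ∀ t : idx G A C₁ C₂, ∃ k ∈ Null Z C₁ C₂, ∃ p : V, k p ≠ 0 ∧
      (grO G C₁ C₂).Reachable p t ∧ ∀ v, k v ≠ 0 → (grO G C₁ C₂).Reachable v t := by
    rintro ⟨t, ht⟩
    rw [mem_idx] at ht
    obtain ⟨ht2, ht1 | ⟨ht1, hrep, g, hg, hgt⟩⟩ := ht
    · refine ⟨Pi.single t 1, ⟨?_, ?_⟩, t, by simp, SimpleGraph.Reachable.refl _, ?_⟩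
      · intro v hv
        rw [Pi.single_eq_of_ne]
        rintro rfl
        exact ht2 hv
      · intro v hv
        rw [Matrix.mulVec_single_one]
        change Z v t = 0
        by_contra hz
        exact hv (D.nbr₁ (hZ.supp v t hz) ht1 ht2)
      · intro v hv
        have : v = t := by
          by_contra hne
          exact hv (by rw [Pi.single_eq_of_ne hne])
        rw [this]
    · have hodd := D.odd ⟨ht1, ht2⟩ hg hgt
      obtain ⟨k, hk0, hsup, hker⟩ := exists_odd Z hZ.symm hZ.diag _ hodd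
      obtain ⟨p, hp⟩ := Function.ne_iff.mp hk0
      have hsup' : ∀ v, k v ≠ 0 → (grO G C₁ C₂).Reachable v t := by
        intro v hv
        rw [← mem_comp]
        by_contra hc
        exact hv (hsup v hc)
      exact ⟨k, D.mem_of_comp hZ ⟨ht1, ht2⟩ hsup hker, p, hp, hsup' p hp, hsup'⟩
  choose k hkN p hp hpr hsup using hk
  have hli : LinearIndependent L (fun t => (⟨k t, hkN t⟩ : Null Z C₁ C₂)) := by
    rw [Fintype.linearIndependent_iff]
    intro c hc t
    have h1 := congrFun (congrArg (Subtype.val) hc) (p t)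
    simp only [Submodule.coe_sum, Submodule.coe_smul, Finset.sum_apply, Pi.smul_apply,
      Submodule.coe_zero, Pi.zero_apply, smul_eq_mul] at h1
    rw [Finset.sum_eq_single t] at h1
    · exact (mul_eq_zero.mp h1).resolve_right (hp t)
    · intro t' _ hne
      by_cases h2 : k t' (p t) = 0
      · rw [h2, mul_zero]
      exfalso
      apply hne
      have h3 : (grO G C₁ C₂).Reachable (t' : V) t := (hsup t' _ h2).symm.trans (hpr t)
      have hr : ∀ t : idx G A C₁ C₂, (t : V) ∈ C₁ ∨ rep G C₁ C₂ t = t := by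
        intro t
        have := t.2
        rw [mem_idx] at this
        tauto
      have hiso : ∀ a b : V, a ∈ C₁ → (grO G C₁ C₂).Reachable a b → a = b := by
        rintro a b ha ⟨q⟩
        cases q with
        | nil => rfl
        | cons h _ => exact absurd ha h.2.1.1
      apply Subtype.ext
      rcases hr t' with h4 | h4
      · exact hiso _ _ h4 h3
      rcases hr t with h5 | h5
      · exact (hiso _ _ h5 h3.symm).symm
      · rw [← h4, ← h5, rep_eq h3]
    · intro h
      exact absurd (Finset.mem_univ t) h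
  have := hli.fintype_card_le_finrank
  simpa using this

lemma Data.base (D : Data G A P C₁ C₂ s ρ) :
    C₁.card ≤ Module.finrank K (Null A C₁ C₂) + ρ := by
  obtain ⟨y, ψ, hy, hP⟩ := D.ex
  let Φ : (C₁ → K) →ₗ[K] (V → K) :=
    { toFun := fun h v => ∑ u : C₁, h u * P u v
      map_add' := fun a b => by
        ext v
        simp [add_mul, Finset.sum_add_distrib]
      map_smul' := fun a b => by
        ext v
        simp [Finset.mul_sum, mul_assoc] }
  have hAΦ : ∀ h v, (A.mulVec (Φ h)) v = if hv : v ∈ C₁ then h ⟨v, hv⟩ else 0 := by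
    intro h v
    have h1 : Φ h = P.mulVec (fun v => if hv : v ∈ C₁ then h ⟨v, hv⟩ else 0) := by
      ext w
      simp only [Matrix.mulVec, dotProduct]
      rw [← Finset.sum_subset (Finset.subset_univ C₁) (fun x _ hx => by rw [dif_neg hx, mul_zero]),
        ← Finset.sum_coe_sort C₁]
      refine Finset.sum_congr rfl fun u _ => ?_
      rw [dif_pos u.2, D.Psymm w u, mul_comm]
    rw [h1, Matrix.mulVec_mulVec, D.AP, Matrix.one_mulVec]
  have hΦ : Function.Injective Φ := by
    intro a b hab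
    ext u
    have h1 := hAΦ a u
    have h2 := hAΦ b u
    rw [hab] at h1
    rw [h1] at h2
    simpa using h2
  let Ψ : (C₁ → K) →ₗ[K] (Fin ρ → K) :=
    { toFun := fun h i => Φ h (y i)
      map_add' := fun a b => by
        ext i
        simp
      map_smul' := fun a b => by
        ext i
        simp }
  have hle : (LinearMap.ker Ψ).map Φ ≤ Null A C₁ C₂ := by
    rintro _ ⟨h, hh, rfl⟩
    have hh' : ∀ i, Φ h (y i) = 0 := fun i => congrFun (LinearMap.mem_ker.mp hh) i
    refine ⟨fun v hv => ?_, fun v hv => by rw [hAΦ, dif_neg hv]⟩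
    have h1 : Φ h v = ∑ i, Φ h (y i) * ψ i v := by
      change ∑ u : C₁, h u * P u v = ∑ i, (∑ u : C₁, h u * P u (y i)) * ψ i v
      simp only [Finset.sum_mul]
      rw [Finset.sum_comm]
      refine Finset.sum_congr rfl fun u _ => ?_
      rw [hP u v, (D.hC₂ v).mp hv u u.2, zero_add, Finset.mul_sum]
      exact Finset.sum_congr rfl fun i _ => by ring
    rw [h1]
    exact Finset.sum_eq_zero fun i _ => by rw [hh', zero_mul]
  have h1 := Submodule.finrank_mono hle
  have h2 := (Submodule.equivMapOfInjective Φ hΦ (LinearMap.ker Ψ)).finrank_eq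
  have h3 := LinearMap.finrank_range_add_finrank_ker Ψ
  have h4 : Module.finrank K (LinearMap.range Ψ) ≤ ρ := by
    have := Submodule.finrank_le (LinearMap.range Ψ)
    simpa using this
  have h5 : Module.finrank K (C₁ → K) = C₁.card := by simp
  omega

theorem Data.final [CharP K 2] {L : Type*} [Field L] [CharP L 2] {Z Q : Matrix V V L}
    (hZ : IsAltOn G Z) (hZQ : Z * Q = 1) (D : Data G A P C₁ C₂ s ρ) {k : ℕ} (hk : ρ < k)
    (x x' : Fin k → V) (hx : ∀ i, x i ∈ C₁) (hx' : ∀ i, x' i ∈ C₂) :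
    (Q.submatrix x' x).det = 0 := by
  have hQZ : Q * Z = 1 := mul_eq_one_comm.mp hZQ
  by_cases hinj : Function.Injective x
  swap
  · rw [Function.Injective] at hinj
    push Not at hinj
    obtain ⟨i, j, hij, hne⟩ := hinj
    exact Matrix.det_zero_of_column_eq hne fun l => by simp [hij]
  set I : Finset V := C₁ \ univ.image x with hI
  have hIc : I.card + k = C₁.card := by
    rw [hI, Finset.card_sdiff_of_subset (by
      intro v hv
      obtain ⟨i, _, rfl⟩ := Finset.mem_image.mp hv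
      exact hx i), Finset.card_image_of_injective _ hinj, Finset.card_univ, Fintype.card_fin]
    have : k ≤ C₁.card := by
      have h1 : (univ.image x).card ≤ C₁.card := Finset.card_le_card (by
        intro v hv
        obtain ⟨i, _, rfl⟩ := Finset.mem_image.mp hv
        exact hx i)
      rwa [Finset.card_image_of_injective _ hinj, Finset.card_univ, Fintype.card_fin] at h1
    omega
  let f : Null Z C₁ C₂ →ₗ[L] (I → L) :=
    { toFun := fun g t => (Z.mulVec (g : V → L)) t
      map_add' := fun a b => by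
        ext t
        simp [Matrix.mulVec_add]
      map_smul' := fun a b => by
        ext t
        simp [Matrix.mulVec_smul] }
  have hlt : Module.finrank L (I → L) < Module.finrank L (Null Z C₁ C₂) := by
    have h1 := D.base
    have h2 := D.upper
    have h3 := D.lower hZ
    have h4 : Module.finrank L (I → L) = I.card := by simp
    omega
  have hker := LinearMap.ker_ne_bot_of_finrank_lt (f := f) hlt
  obtain ⟨⟨g, hg⟩, hgk, hg0⟩ := Submodule.exists_mem_ne_zero_of_ne_bot hker
  have hg0' : g ≠ 0 := fun h => hg0 (Subtype.ext h)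
  set h := Z.mulVec g with hh
  have hQh : Q.mulVec h = g := by rw [hh, Matrix.mulVec_mulVec, hQZ, Matrix.one_mulVec]
  have hsup : ∀ v, v ∉ univ.image x → h v = 0 := by
    intro v hv
    by_cases hv1 : v ∈ C₁
    · have hvI : v ∈ I := Finset.mem_sdiff.mpr ⟨hv1, hv⟩
      exact congrFun (LinearMap.mem_ker.mp hgk) ⟨v, hvI⟩
    · exact hg.2 v hv1
  rw [← Matrix.exists_mulVec_eq_zero_iff]
  refine ⟨fun i => h (x i), ?_, ?_⟩
  · intro h0
    apply hg0'
    rw [← hQh]
    have : h = 0 := by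
      ext v
      by_cases hv : v ∈ univ.image x
      · obtain ⟨i, _, rfl⟩ := Finset.mem_image.mp hv
        exact congrFun h0 i
      · exact hsup v hv
    rw [this, Matrix.mulVec_zero]
  · ext j
    have h1 : (Q.mulVec h) (x' j) = 0 := by
      rw [hQh]
      exact hg.1 _ (hx' j)
    rw [Pi.zero_apply, ← h1]
    simp only [Matrix.mulVec, dotProduct, Matrix.submatrix_apply]
    rw [← Finset.sum_subset (Finset.subset_univ (univ.image x))
      (fun v _ hv => by rw [hsup v hv, mul_zero]), Finset.sum_image (fun a _ b _ hab => hinj hab)]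

end

end Pool.Agent.Lib.MP_0c183c_h75B
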