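import Pool.Agent.Lib.MP_0c183c_h75B.LevelOf
import Pool.Agent.Lib.MP_0c183c_P9A.Interface
import Pool.Agent.Lib.MP_0c183c_co_P9W.Exists
import Pool.Agent.Lib.MP_0c183c_co_P9W.Room

/-! # The bounded order theorem, from the limit structure -/

set_option autoImplicit false

namespace Pool.Agent.Lib.MP_0c183c_h75B

open Pool.Agent.Lib.MP_0c183c_co Pool.Agent.Lib.MP_0c183c_co_P9W Matrix Finset

section

variable {n : ℕ} {K : Type} [Field K]

/-- An enumeration of the edges of a perfect matching. -/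
lemma exists_enum {π : Equiv.Perm (Fin n)} (hπ : IsPM π) :
    ∃ (m : ℕ) (e : Fin m × Bool → Fin n), Function.Injective e ∧ Function.Surjective e ∧
      ∀ i a, π (e (i, a)) = e (i, !a) := by
  classical
  let S : Finset (Fin n) := univ.filter fun u => u < π u
  let eq : Fin S.card ≃ S := S.equivFin.symm
  refine ⟨S.card, fun p => if p.2 then π (eq p.1) else (eq p.1 : Fin n), ?_, ?_, ?_⟩
  · rintro ⟨i, a⟩ ⟨j, b⟩ h
    have hi : (eq i : Fin n) < π (eq i) := (Finset.mem_filter.mp (eq i).2).2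
    have hj : (eq j : Fin n) < π (eq j) := (Finset.mem_filter.mp (eq j).2).2
    have h2 := (hπ (eq i)).2
    have h3 := (hπ (eq j)).2
    cases a <;> cases b <;> simp only [if_true, if_false, Bool.false_eq_true] at h
    · have : eq i = eq j := Subtype.ext h
      rw [eq.injective this]
    · rw [h, h3] at hi
      exact absurd hi hj.not_gt
    · rw [← h, h2] at hj
      exact absurd hj hi.not_gt
    · have : eq i = eq j := Subtype.ext (π.injective h)
      rw [eq.injective this]
  · intro v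
    rcases lt_or_gt_of_ne (hπ v).1.symm with h | h
    · have hv : v ∈ S := Finset.mem_filter.mpr ⟨mem_univ _, h⟩
      refine ⟨(eq.symm ⟨v, hv⟩, false), ?_⟩
      simp
    · have hv : π v ∈ S := Finset.mem_filter.mpr ⟨mem_univ _, by rw [(hπ v).2]; exact h⟩
      refine ⟨(eq.symm ⟨π v, hv⟩, true), ?_⟩
      simp [(hπ v).2]
  · intro i a
    cases a
    · simp
    · simp [(hπ (eq i : Fin n)).2]

/-- From vanishing of the coefficients of order at most `s₀` to a family of exact order. -/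
lemma exists_exact {G : SimpleGraph (Fin n)} (A : Matrix (Fin n) (Fin n) K)
    (f : Equiv.Perm (Fin n) → K) {s₀ : ℕ}
    (hvan : ∀ (k : ℕ) (e : Fin k × Bool → Fin n), k ≤ s₀ → Function.Injective e →
      (∀ i, G.Adj (e (i, false)) (e (i, true))) → T f (isoS e univ A) = 0)
    {π : Equiv.Perm (Fin n)} (hπ : IsPM π) (hG : InG G π) (hf : f π ≠ 0) :
    ∃ (m : ℕ) (e : Fin m × Bool → Fin n), s₀ < m ∧ Function.Injective e ∧
      (∀ i, G.Adj (e (i, false)) (e (i, true))) ∧
      (∀ S : Finset (Fin m), S ≠ univ → T f (isoS e S A) = 0) ∧ T f (isoS e univ A) ≠ 0 := by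
  classical
  let Q : ℕ → Prop := fun m => ∃ e : Fin m × Bool → Fin n, Function.Injective e ∧
    (∀ i, G.Adj (e (i, false)) (e (i, true))) ∧ T f (isoS e univ A) ≠ 0
  have hQ : ∃ m, Q m := by
    obtain ⟨m, e, he, hs, hp⟩ := exists_enum hπ
    refine ⟨m, e, he, fun i => ?_, ?_⟩
    · have := hG (e (i, false))
      rwa [hp] at this
    · rw [T_isoS_perfect hs f hπ hp A]
      exact hf
  obtain ⟨e, he, hadj, hne⟩ := Nat.find_spec hQ
  refine ⟨Nat.find hQ, e, ?_, he, hadj, ?_, hne⟩
  · by_contra hle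
    push Not at hle
    exact hne (hvan _ e hle he hadj)
  · intro S hS
    by_contra hne'
    have hlt : S.card < Nat.find hQ := by
      have h1 : S.card < (univ : Finset (Fin (Nat.find hQ))).card :=
        Finset.card_lt_card (Finset.ssubset_univ_iff.mpr hS)
      simpa using h1
    apply Nat.find_min hQ hlt
    let ι : Fin S.card ↪ Fin (Nat.find hQ) := (S.orderEmbOfFin rfl).toEmbedding
    refine ⟨fun p => e (ι p.1, p.2), ?_, fun i => hadj (ι i), ?_⟩
    · intro p q hpq
      have := he hpq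
      rw [Prod.mk.injEq] at this
      exact Prod.ext (ι.injective this.1) this.2
    · rw [isoS_comp e ι univ A]
      have : (univ : Finset (Fin S.card)).map ι = S := by
        have h1 := Finset.map_orderEmbOfFin_univ S rfl
        exact h1
      rw [this]
      exact hne'

end

lemma big_of (K Ω : Type) [Field K] [Field Ω] [Algebra K Ω] (ψ : MvPolynomial ℕ K →+* Ω)
    (hψ : Function.Injective ψ) (hC : ∀ a, ψ (MvPolynomial.C a) = algebraMap K Ω a) :
    AlgebraicIndependent K (fun i => ψ (MvPolynomial.X i)) := by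
  have h : ∀ p : MvPolynomial ℕ K, MvPolynomial.aeval (fun i => ψ (MvPolynomial.X i)) p = ψ p := by
    intro p
    induction p using MvPolynomial.induction_on with
    | C a => rw [MvPolynomial.aeval_C, hC]
    | add p q hp hq => rw [map_add, map_add, hp, hq]
    | mul_X p i hp => rw [map_mul, map_mul, hp, MvPolynomial.aeval_X]
  intro p q hpq
  apply hψ
  rw [← h p, ← h q]
  exact hpq

lemma exists_big (K : Type) [Field K] : ∃ (Ω : Type) (_ : Field Ω) (_ : IsAlgClosed Ω)
    (_ : Algebra K Ω) (τ : ℕ → Ω), AlgebraicIndependent K τ := by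
  obtain ⟨F, hF, ψ, hψ⟩ : ∃ (F : Type) (_ : Field F) (ψ : MvPolynomial ℕ K →+* F),
      Function.Injective ψ :=
    ⟨FractionRing (MvPolynomial ℕ K), inferInstance, algebraMap _ _, IsFractionRing.injective _ _⟩
  obtain ⟨Ω, hΩ, hc, ρ⟩ : ∃ (Ω : Type) (_ : Field Ω) (_ : IsAlgClosed Ω), Nonempty (F →+* Ω) :=
    ⟨AlgebraicClosure F, inferInstance, inferInstance, ⟨algebraMap _ _⟩⟩
  obtain ⟨ρ⟩ := ρ
  let alg : Algebra K Ω := ((ρ.comp ψ).comp MvPolynomial.C).toAlgebra
  refine ⟨Ω, hΩ, hc, alg, fun i => (ρ.comp ψ) (MvPolynomial.X i), ?_⟩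
  exact big_of K Ω (ρ.comp ψ) (ρ.injective.comp hψ) fun a => rfl

/-- The list of the edges of a family. -/
def edgeList {n m : ℕ} (e : Fin m × Bool → Fin n) : List (Fin n × Fin n) :=
  List.ofFn fun i : Fin m => (e (i, false), e (i, true))

lemma isMat_edgeList {n : ℕ} {G : SimpleGraph (Fin n)} {m : ℕ} {e : Fin m × Bool → Fin n}
    (he : Function.Injective e) (hadj : ∀ i, G.Adj (e (i, false)) (e (i, true))) :
    MP_0c183c_P9A.IsMat G (edgeList e) := by
  have key : ∀ i j : Fin m, i ≠ j → ∀ a b : Bool, e (i, a) ≠ e (j, b) := by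
    intro i j hij a b h
    exact hij (Prod.mk.inj (he h)).1
  refine ⟨?_, ?_⟩
  · intro p hp
    obtain ⟨i, rfl⟩ := (List.mem_ofFn' _ _).1 hp
    exact hadj i
  · unfold edgeList
    rw [List.pairwise_ofFn]
    intro i j hij
    exact ⟨key i j hij.ne _ _, key i j hij.ne _ _, key i j hij.ne _ _, key i j hij.ne _ _⟩

lemma delH_edgeList {n : ℕ} {R : Type*} [CommRing R] {m : ℕ} (e : Fin m × Bool → Fin n)
    (A : Matrix (Fin n) (Fin n) R) : MP_0c183c_P9A.delH (edgeList e) A = isoS e univ A := by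
  have hc : ∀ v, MP_0c183c_P9A.Cov (edgeList e) v ↔ ∃ i, ∃ a, v = e (i, a) := by
    intro v
    constructor
    · rintro ⟨p, hp, h⟩
      obtain ⟨i, rfl⟩ := (List.mem_ofFn' _ _).1 hp
      rcases h with h | h
      · exact ⟨i, false, h.symm⟩
      · exact ⟨i, true, h.symm⟩
    · rintro ⟨i, a, h⟩
      refine ⟨(e (i, false), e (i, true)), (List.mem_ofFn' _ _).2 ⟨i, rfl⟩, ?_⟩
      cases a
      · exact Or.inl h.symm
      · exact Or.inr h.symm
  have hm : ∀ u v, ((u, v) ∈ edgeList e ∨ (v, u) ∈ edgeList e) ↔ ∃ i, IsPair e i u v := by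
    intro u v
    constructor
    · rintro (h | h)
      · obtain ⟨i, hi⟩ := (List.mem_ofFn' _ _).1 h
        have h1 := Prod.mk.inj hi
        exact ⟨i, Or.inl ⟨h1.1.symm, h1.2.symm⟩⟩
      · obtain ⟨i, hi⟩ := (List.mem_ofFn' _ _).1 h
        have h1 := Prod.mk.inj hi
        exact ⟨i, Or.inr ⟨h1.2.symm, h1.1.symm⟩⟩
    · rintro ⟨i, h | h⟩
      · left
        rw [h.1, h.2]
        exact (List.mem_ofFn' _ _).2 ⟨i, rfl⟩
      · right
        rw [h.1, h.2]
        exact (List.mem_ofFn' _ _).2 ⟨i, rfl⟩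
  ext u v
  unfold MP_0c183c_P9A.delH isoS
  by_cases h1 : ∃ i, IsPair e i u v
  · rw [if_pos, if_pos ((hm u v).2 h1), if_pos]
    · obtain ⟨i, hi⟩ := h1
      exact ⟨i, mem_univ i, hi⟩
    · obtain ⟨i, hi⟩ := h1
      left
      rw [hc]
      rcases hi with hi | hi
      · exact ⟨i, false, hi.1⟩
      · exact ⟨i, true, hi.1⟩
  · have h1' : ¬ ∃ i ∈ (univ : Finset (Fin m)), IsPair e i u v := fun ⟨i, _, hi⟩ => h1 ⟨i, hi⟩
    rw [if_neg h1']
    by_cases h2 : MP_0c183c_P9A.Cov (edgeList e) u ∨ MP_0c183c_P9A.Cov (edgeList e) v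
    · rw [if_pos h2, if_neg (fun h => h1 ((hm u v).1 h)), if_pos]
      rcases h2 with h2 | h2
      · obtain ⟨i, a, h⟩ := (hc u).1 h2
        exact ⟨i, mem_univ i, a, Or.inl h⟩
      · obtain ⟨i, a, h⟩ := (hc v).1 h2
        exact ⟨i, mem_univ i, a, Or.inr h⟩
    · rw [if_neg h2, if_neg]
      rintro ⟨i, _, a, h | h⟩
      · exact h2 (Or.inl ((hc u).2 ⟨i, a, h⟩))
      · exact h2 (Or.inr ((hc v).2 ⟨i, a, h⟩))

/-- **The bounded order theorem**, given that there is no limit structure. -/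
theorem bok_of_no_world (hW : World → False) (K : Type) [Field K] [CharP K 2] :
    ∃ c s₀ : ℕ, MP_0c183c_P9A.BOK K c s₀ := by
  by_contra hcon
  push Not at hcon
  obtain ⟨Ω, _, _, _, τ, hτ⟩ := exists_big K
  have hchar : CharP Ω 2 := charP_of_injective_algebraMap (algebraMap K Ω).injective 2
  let _ : Algebra (ZMod 2) K := ZMod.algebra K 2
  let _ : Algebra (ZMod 2) Ω := ZMod.algebra Ω 2
  have hsc : IsScalarTower (ZMod 2) K Ω := by
    refine IsScalarTower.of_algebraMap_eq fun x => ?_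
    exact RingHom.congr_fun (Subsingleton.elim (algebraMap (ZMod 2) Ω)
      ((algebraMap K Ω).comp (algebraMap (ZMod 2) K))) x
  have hτ2 : AlgebraicIndependent (ZMod 2) τ :=
    AlgebraicIndependent.restrictScalars (R := ZMod 2) (K := K)
      (algebraMap (ZMod 2) K).injective hτ
  suffices h : Nonempty World by exact hW h.some
  apply world_of_levels Ω (room_of_algebraicIndependent τ hτ2)
  intro N
  have hN := hcon N N
  unfold MP_0c183c_P9A.BOK at hN
  push Not at hN
  obtain ⟨n, G, A, hA, hdet, hgen, x, ⟨π, hπ, hG, hne⟩, hvan⟩ := hN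
  have hf0 : ∀ m, MP_0c183c_P9A.fx K x m =
      (fun π => (ZMod.castHom (dvd_refl 2) K) (cr π + lin x π + 0)) m := by
    intro m
    show (ZMod.castHom (dvd_refl 2) K) (cr m + lin x m) =
      (ZMod.castHom (dvd_refl 2) K) (cr m + lin x m + 0)
    rw [add_zero]
  have hf : MP_0c183c_P9A.fx K x = fun π => (ZMod.castHom (dvd_refl 2) K) (cr π + lin x π + 0) :=
    funext hf0
  obtain ⟨m, e, hm, he, hadj, h0, h1⟩ := exists_exact (s₀ := N) A (MP_0c183c_P9A.fx K x) (by
      intro k e hk he hadj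
      rw [← delH_edgeList e A, MP_0c183c_P9A.T_delH _ (isMat_edgeList he hadj)]
      exact hvan _ (isMat_edgeList he hadj) (by simpa [edgeList] using hk)) hπ hG
    (fun h => by
      rw [hf0] at h
      have h2 := (map_eq_zero_iff _ (ZMod.castHom (dvd_refl 2) K).injective).mp h
      rw [add_zero] at h2
      exact hne (CharTwo.add_eq_zero.mp h2))
  rw [hf] at h0 h1
  exact ⟨N, m, le_rfl, hm.le, level_of_failure (hτ.comp (fun i : Fin m => (i : ℕ))
    Fin.val_injective) hA hdet (fun k hk a b h => hgen k hk a b h) he hadj _ x 0 h0 h1⟩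

end Pool.Agent.Lib.MP_0c183c_h75B
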