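import Pool.Agent.Lib.MP_0c183c_h75B.Quadric

/-! # Forced corank (Lemma E)

For every matrix `P` on `ι × Fin 2` over an algebraically closed field of characteristic two, with
`ι` large, there are a nonempty set `A` and scalars `θ` such that the restriction of
`P + ⊕ θ_i J_i` to `A` has a kernel of large dimension. -/

set_option autoImplicit false

namespace Pool.Agent.Lib.MP_0c183c_h75B

open Finset

section

variable {ι K : Type*} [DecidableEq ι] [Fintype ι] [Field K]

/-- The state of the construction. -/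
structure State (P : Matrix (ι × Fin 2) (ι × Fin 2) K) (A O : Finset ι) (θ : ι → K)
    (R : Submodule K (ι × Fin 2 → K)) : Prop where
  supp : ∀ g ∈ R, ∀ i ∉ A, ∀ a, g (i, a) = 0
  on : ∀ g ∈ R, ∀ i ∈ A, ∀ a, (P.mulVec g) (i, a) + θ i * g (i, 1 - a) = 0
  off : ∀ g ∈ R, ∀ i ∈ O, ∀ a, (P.mulVec g) (i, a) = 0

/-- The space of candidates. -/
def Wsp (P : Matrix (ι × Fin 2) (ι × Fin 2) K) (A G O : Finset ι) (θ : ι → K) :
    Submodule K (ι × Fin 2 → K) where
  carrier := {g | (∀ i ∉ A ∪ G, ∀ a, g (i, a) = 0) ∧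
    (∀ i ∈ A, ∀ a, (P.mulVec g) (i, a) + θ i * g (i, 1 - a) = 0) ∧
    ∀ i ∈ O, ∀ a, (P.mulVec g) (i, a) = 0}
  zero_mem' := by simp
  add_mem' := by
    rintro g h ⟨g1, g2, g3⟩ ⟨h1, h2, h3⟩
    refine ⟨fun i hi a => by simp [g1 i hi a, h1 i hi a], fun i hi a => ?_, fun i hi a => ?_⟩
    · rw [Matrix.mulVec_add]
      simp only [Pi.add_apply]
      linear_combination g2 i hi a + h2 i hi a
    · rw [Matrix.mulVec_add]
      simp only [Pi.add_apply]
      rw [g3 i hi a, h3 i hi a, add_zero]
  smul_mem' := by
    rintro c g ⟨g1, g2, g3⟩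
    refine ⟨fun i hi a => by simp [g1 i hi a], fun i hi a => ?_, fun i hi a => ?_⟩
    · rw [Matrix.mulVec_smul]
      simp only [Pi.smul_apply, smul_eq_mul]
      linear_combination c * g2 i hi a
    · rw [Matrix.mulVec_smul]
      simp only [Pi.smul_apply, smul_eq_mul]
      rw [g3 i hi a, mul_zero]

lemma finrank_Wsp (P : Matrix (ι × Fin 2) (ι × Fin 2) K) (A G O : Finset ι) (θ : ι → K)
    (hAG : Disjoint A G) : 2 * G.card ≤ Module.finrank K (Wsp P A G O θ) + 2 * O.card := by
  -- extension by zero
  let E : ((A ∪ G : Finset ι) × Fin 2 → K) →ₗ[K] (ι × Fin 2 → K) :=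
    { toFun := fun g p => if h : p.1 ∈ A ∪ G then g (⟨p.1, h⟩, p.2) else 0
      map_add' := by
        intro g h
        ext p
        by_cases hp : p.1 ∈ A ∪ G
        · simp only [dif_pos hp, Pi.add_apply]
        · simp only [dif_neg hp, Pi.add_apply, add_zero]
      map_smul' := by
        intro c g
        ext p
        by_cases hp : p.1 ∈ A ∪ G
        · simp only [dif_pos hp, Pi.smul_apply, RingHom.id_apply]
        · simp only [dif_neg hp, Pi.smul_apply, smul_zero] }
  have hE : Function.Injective E := by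
    intro g h hgh
    ext ⟨⟨i, hi⟩, a⟩
    have := congrFun hgh (i, a)
    simp only [E, LinearMap.coe_mk, AddHom.coe_mk, dif_pos hi] at this
    exact this
  let T : ((A ∪ G : Finset ι) × Fin 2 → K) →ₗ[K] ((A × Fin 2) ⊕ (O × Fin 2) → K) :=
    { toFun := fun g => Sum.elim
        (fun p => (P.mulVec (E g)) (p.1, p.2) + θ p.1 * (E g) (p.1, 1 - p.2))
        (fun p => (P.mulVec (E g)) (p.1, p.2))
      map_add' := by
        intro g h
        ext (p | p)
        · simp only [map_add, Matrix.mulVec_add, Sum.elim_inl, Pi.add_apply]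
          ring
        · simp only [map_add, Matrix.mulVec_add, Sum.elim_inr, Pi.add_apply]
      map_smul' := by
        intro c g
        ext (p | p)
        · simp only [map_smul, Matrix.mulVec_smul, Sum.elim_inl, Pi.smul_apply, smul_eq_mul,
            RingHom.id_apply]
          ring
        · simp only [map_smul, Matrix.mulVec_smul, Sum.elim_inr, Pi.smul_apply, smul_eq_mul,
            RingHom.id_apply] }
  have hle : (LinearMap.ker T).map E ≤ Wsp P A G O θ := by
    rintro _ ⟨g, hg, rfl⟩
    have hg' : T g = 0 := hg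
    refine ⟨fun i hi a => ?_, fun i hi a => ?_, fun i hi a => ?_⟩
    · simp only [E, LinearMap.coe_mk, AddHom.coe_mk]
      rw [dif_neg hi]
    · exact congrFun hg' (Sum.inl (⟨i, hi⟩, a))
    · exact congrFun hg' (Sum.inr (⟨i, hi⟩, a))
  have h1 := Submodule.finrank_mono hle
  have h2 := (Submodule.equivMapOfInjective E hE (LinearMap.ker T)).finrank_eq
  have h3 := LinearMap.finrank_range_add_finrank_ker T
  have h4 : Module.finrank K (LinearMap.range T) ≤ 2 * A.card + 2 * O.card := by
    have := Submodule.finrank_le (LinearMap.range T)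
    simp only [Module.finrank_fintype_fun_eq_card, Fintype.card_sum, Fintype.card_prod,
      Fintype.card_coe, Fintype.card_fin] at this
    omega
  have h5 : Module.finrank K ((A ∪ G : Finset ι) × Fin 2 → K) = 2 * A.card + 2 * G.card := by
    simp only [Module.finrank_fintype_fun_eq_card, Fintype.card_prod,
      Fintype.card_coe, Fintype.card_fin]
    rw [Finset.card_union_of_disjoint hAG]
    ring
  omega

/-- One step of the construction. -/
lemma State.step [IsAlgClosed K] [CharP K 2] {P : Matrix (ι × Fin 2) (ι × Fin 2) K}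
    {A O G : Finset ι} {θ : ι → K} {R : Submodule K (ι × Fin 2 → K)}
    (hS : State P A (G ∪ O) θ R) (hAG : Disjoint A G)
    (hc : 2 * O.card + Module.finrank K R + 1 ≤ G.card) :
    ∃ (A' : Finset ι) (θ' : ι → K) (R' : Submodule K (ι × Fin 2 → K)), A' ⊆ A ∪ G ∧
      State P A' O θ' R' ∧ Module.finrank K R' = Module.finrank K R + 1 := by
  classical
  obtain ⟨C, hC⟩ := Submodule.exists_isCompl R
  set W := Wsp P A G O θ with hW
  have hWC : G.card + 1 ≤ Module.finrank K (W ⊓ C : Submodule K (ι × Fin 2 → K)) := by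
    have h1 := Submodule.finrank_sup_add_finrank_inf_eq W C
    have h2 := Submodule.finrank_add_eq_of_isCompl hC
    have h3 := Submodule.finrank_le (W ⊔ C)
    have h4 := finrank_Wsp P A G O θ hAG
    rw [← hW] at h4
    omega
  let f : Fin G.card ≃ G := G.equivFin.symm
  let B : Fin G.card → (W ⊓ C : Submodule K (ι × Fin 2 → K)) →ₗ[K]
      (W ⊓ C : Submodule K (ι × Fin 2 → K)) →ₗ[K] K := fun l =>
    LinearMap.mk₂ K (fun g h => ∑ a, (P.mulVec (g : ι × Fin 2 → K)) ((f l : ι), a) *
        (h : ι × Fin 2 → K) ((f l : ι), a))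
      (by
        intro g g' h
        simp only [Submodule.coe_add, Matrix.mulVec_add, Pi.add_apply, add_mul,
          Finset.sum_add_distrib])
      (by
        intro c g h
        simp only [Submodule.coe_smul, Matrix.mulVec_smul, Pi.smul_apply, smul_eq_mul, mul_assoc,
          Finset.mul_sum])
      (by
        intro g h h'
        simp only [Submodule.coe_add, Pi.add_apply, mul_add, Finset.sum_add_distrib])
      (by
        intro c g h
        simp only [Submodule.coe_smul, Pi.smul_apply, smul_eq_mul, Finset.mul_sum]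
        exact Finset.sum_congr rfl fun a _ => by ring)
  obtain ⟨⟨g, hgW, hgC⟩, hg0, hgq⟩ := exists_isotropic (r := G.card) (by omega) B
  have hg0' : g ≠ 0 := fun h => hg0 (Subtype.ext h)
  have hq : ∀ i ∈ G, (P.mulVec g) (i, 0) * g (i, 0) + (P.mulVec g) (i, 1) * g (i, 1) = 0 := by
    intro i hi
    have h1 := hgq (f.symm ⟨i, hi⟩)
    simp only [B, LinearMap.mk₂_apply, Equiv.apply_symm_apply, Fin.sum_univ_two] at h1
    exact h1
  have hθ : ∀ i ∈ G, (g (i, 0) ≠ 0 ∨ g (i, 1) ≠ 0) →
      ∃ t : K, ∀ a, (P.mulVec g) (i, a) + t * g (i, 1 - a) = 0 := by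
    intro i hi h
    have h1 := hq i hi
    rcases h with h | h
    · refine ⟨(P.mulVec g) (i, 1) / g (i, 0), fun a => ?_⟩
      fin_cases a
      · change (P.mulVec g) (i, 0) + (P.mulVec g) (i, 1) / g (i, 0) * g (i, 1) = 0
        have h2 : g (i, 0) * ((P.mulVec g) (i, 0) + (P.mulVec g) (i, 1) / g (i, 0) * g (i, 1)) =
            0 := by
          field_simp
          linear_combination h1
        exact (mul_eq_zero.mp h2).resolve_left h
      · change (P.mulVec g) (i, 1) + (P.mulVec g) (i, 1) / g (i, 0) * g (i, 0) = 0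
        rw [div_mul_cancel₀ _ h, CharTwo.add_self_eq_zero]
    · refine ⟨(P.mulVec g) (i, 0) / g (i, 1), fun a => ?_⟩
      fin_cases a
      · change (P.mulVec g) (i, 0) + (P.mulVec g) (i, 0) / g (i, 1) * g (i, 1) = 0
        rw [div_mul_cancel₀ _ h, CharTwo.add_self_eq_zero]
      · change (P.mulVec g) (i, 1) + (P.mulVec g) (i, 0) / g (i, 1) * g (i, 0) = 0
        have h2 : g (i, 1) * ((P.mulVec g) (i, 1) + (P.mulVec g) (i, 0) / g (i, 1) * g (i, 0)) =
            0 := by
          field_simp
          linear_combination h1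
        exact (mul_eq_zero.mp h2).resolve_left h
  set N : Finset ι := G.filter fun i => g (i, 0) ≠ 0 ∨ g (i, 1) ≠ 0 with hN
  have hN' : ∀ i ∈ G, i ∉ N → ∀ a, g (i, a) = 0 := by
    intro i hi hiN
    have h1 : ¬ (g (i, 0) ≠ 0 ∨ g (i, 1) ≠ 0) := fun h =>
      hiN (Finset.mem_filter.mpr ⟨hi, h⟩)
    push Not at h1
    intro a
    fin_cases a
    · exact h1.1
    · exact h1.2
  choose! t ht using hθ
  refine ⟨A ∪ N, fun i => if i ∈ A then θ i else t i, R ⊔ Submodule.span K {g}, ?_, ?_, ?_⟩
  · exact Finset.union_subset_union_right (Finset.filter_subset _ _)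
  · have hlin : ∀ (p : (ι × Fin 2 → K) → Prop), (∀ a b, p a → p b → p (a + b)) →
        (∀ (c : K) a, p a → p (c • a)) → (∀ h ∈ R, p h) → p g →
        ∀ h ∈ R ⊔ Submodule.span K {g}, p h := by
      intro p hadd hsmul hR hg h hh
      obtain ⟨y, hy, z, hz, rfl⟩ := Submodule.mem_sup.mp hh
      obtain ⟨c, rfl⟩ := Submodule.mem_span_singleton.mp hz
      exact hadd _ _ (hR y hy) (hsmul c g hg)
    have hGA : ∀ i ∈ G, i ∉ A := fun i hi hA => (Finset.disjoint_left.mp hAG) hA hi
    refine ⟨?_, ?_, ?_⟩
    · apply hlin (fun h => ∀ i ∉ A ∪ N, ∀ a, h (i, a) = 0)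
      · intro a b ha hb i hi c
        simp [ha i hi c, hb i hi c]
      · intro c a ha i hi d
        simp [ha i hi d]
      · intro h hh i hi a
        exact hS.supp h hh i (fun h' => hi (Finset.mem_union_left _ h')) a
      · intro i hi a
        by_cases hiG : i ∈ G
        · exact hN' i hiG (fun h' => hi (Finset.mem_union_right _ h')) a
        · apply hgW.1 i
          rw [Finset.mem_union]
          rintro (h' | h')
          · exact hi (Finset.mem_union_left _ h')
          · exact hiG h'
    · apply hlin (fun h => ∀ i ∈ A ∪ N, ∀ a, (P.mulVec h) (i, a) +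
        (if i ∈ A then θ i else t i) * h (i, 1 - a) = 0)
      · intro a b ha hb i hi c
        rw [Matrix.mulVec_add]
        simp only [Pi.add_apply]
        linear_combination ha i hi c + hb i hi c
      · intro c a ha i hi d
        rw [Matrix.mulVec_smul]
        simp only [Pi.smul_apply, smul_eq_mul]
        linear_combination c * ha i hi d
      · intro h hh i hi a
        by_cases hiA : i ∈ A
        · rw [if_pos hiA]
          exact hS.on h hh i hiA a
        · have hiG : i ∈ G := by
            rcases Finset.mem_union.mp hi with h' | h'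
            · exact absurd h' hiA
            · exact (Finset.mem_filter.mp h').1
          rw [hS.supp h hh i hiA, hS.off h hh i (Finset.mem_union_left _ hiG), mul_zero, add_zero]
      · intro i hi a
        by_cases hiA : i ∈ A
        · rw [if_pos hiA]
          exact hgW.2.1 i hiA a
        · rw [if_neg hiA]
          have hiN : i ∈ N := by
            rcases Finset.mem_union.mp hi with h' | h'
            · exact absurd h' hiA
            · exact h'
          have := Finset.mem_filter.mp hiN
          exact ht i this.1 this.2 a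
    · apply hlin (fun h => ∀ i ∈ O, ∀ a, (P.mulVec h) (i, a) = 0)
      · intro a b ha hb i hi c
        rw [Matrix.mulVec_add, Pi.add_apply, ha i hi c, hb i hi c, add_zero]
      · intro c a ha i hi d
        rw [Matrix.mulVec_smul, Pi.smul_apply, ha i hi d, smul_zero]
      · intro h hh i hi a
        exact hS.off h hh i (Finset.mem_union_right _ hi) a
      · exact hgW.2.2
  · have h1 := Submodule.finrank_sup_add_finrank_inf_eq R (Submodule.span K {g})
    have h2 : R ⊓ Submodule.span K {g} = ⊥ := by
      rw [← le_bot_iff, ← hC.inf_eq_bot]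
      apply inf_le_inf_left
      rw [Submodule.span_le, Set.singleton_subset_iff]
      exact hgC
    rw [h2, finrank_bot, finrank_span_singleton hg0'] at h1
    omega

/-- The required number of elements. -/
def need : ℕ → ℕ → ℕ
  | 0, m => m
  | k + 1, m => need k (3 * m + k + 1)

lemma exists_state [IsAlgClosed K] [CharP K 2] (P : Matrix (ι × Fin 2) (ι × Fin 2) K) :
    ∀ k m, need k m ≤ Fintype.card ι → ∃ (A O : Finset ι) (θ : ι → K)
      (R : Submodule K (ι × Fin 2 → K)), Disjoint A O ∧ O.card = m ∧ State P A O θ R ∧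
      Module.finrank K R = k := by
  intro k
  induction k with
  | zero =>
    intro m hm
    obtain ⟨O, _, hO⟩ := Finset.exists_subset_card_eq (s := (univ : Finset ι)) (n := m)
      (by simpa [need] using hm)
    refine ⟨∅, O, 0, ⊥, Finset.disjoint_empty_left _, hO, ⟨?_, ?_, ?_⟩, by simp⟩
    · intro g hg i _ a
      rw [(Submodule.mem_bot K).mp hg]
      rfl
    · intro g hg i hi a
      exact absurd hi (Finset.notMem_empty i)
    · intro g hg i _ a
      rw [(Submodule.mem_bot K).mp hg, Matrix.mulVec_zero]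
      rfl
  | succ k ih =>
    intro m hm
    obtain ⟨A, O', θ, R, hAO', hO', hS, hR⟩ := ih (3 * m + k + 1) hm
    obtain ⟨O, hOO', hO⟩ := Finset.exists_subset_card_eq (s := O') (n := m) (by omega)
    have hGc : (O' \ O).card = 2 * m + k + 1 := by
      rw [Finset.card_sdiff_of_subset hOO', hO', hO]
      omega
    have hun : (O' \ O) ∪ O = O' := Finset.sdiff_union_of_subset hOO'
    obtain ⟨A', θ', R', hA', hS', hR'⟩ := State.step (P := P) (A := A) (O := O) (G := O' \ O)
      (θ := θ) (R := R) (by rw [hun]; exact hS)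
      (hAO'.mono_right Finset.sdiff_subset) (by omega)
    refine ⟨A', O, θ', R', ?_, hO, hS', by omega⟩
    refine Finset.disjoint_of_subset_left hA' ?_
    rw [Finset.disjoint_union_left]
    exact ⟨hAO'.mono_right hOO', Finset.sdiff_disjoint⟩

/-- **Forced corank.** -/
theorem forced_corank [IsAlgClosed K] [CharP K 2] (P : Matrix (ι × Fin 2) (ι × Fin 2) K) {k : ℕ}
    (hk : 0 < k) (hcard : need k 0 ≤ Fintype.card ι) :
    ∃ (A : Finset ι) (θ : ι → K) (R : Submodule K (ι × Fin 2 → K)), A.Nonempty ∧
      Module.finrank K R = k ∧ ∀ g ∈ R, (∀ i ∉ A, ∀ a, g (i, a) = 0) ∧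
        ∀ i ∈ A, ∀ a, (P.mulVec g) (i, a) + θ i * g (i, 1 - a) = 0 := by
  obtain ⟨A, O, θ, R, _, _, hS, hR⟩ := exists_state P k 0 hcard
  refine ⟨A, θ, R, ?_, hR, fun g hg => ⟨hS.supp g hg, hS.on g hg⟩⟩
  rw [Finset.nonempty_iff_ne_empty]
  rintro rfl
  have : R = ⊥ := by
    rw [Submodule.eq_bot_iff]
    intro g hg
    ext ⟨i, a⟩
    exact hS.supp g hg i (Finset.notMem_empty i) a
  rw [this, finrank_bot] at hR
  omega

example : need 6 0 = 2005 := rfl

end

end Pool.Agent.Lib.MP_0c183c_h75B
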