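import Pool.Agent.Lib.MP_0c183c_h75B.Supply

/-! # Absorbing one element at a generic parameter -/

set_option autoImplicit false

namespace Pool.Agent.Lib.MP_0c183c_h75B

open Pool.Agent.Lib.MP_0c183c_co Pool.Agent.Lib.MP_0c183c_co_P9W Matrix Finset

lemma addE_apply_sum {n : ℕ} {R : Type*} [CommRing R] {a b : Fin n} (hab : a ≠ b) (σ : R)
    (A : Matrix (Fin n) (Fin n) R) (u : Fin n) (F : Fin n → R) :
    ∑ w, addE a b σ A u w * F w = ∑ w, A u w * F w + ((if u = a then σ * F b else 0) +
      (if u = b then σ * F a else 0)) := by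
  have h1 : ∀ w, addE a b σ A u w * F w = A u w * F w +
      ((if w = b then (if u = a then σ * F b else 0) else 0) +
      (if w = a then (if u = b then σ * F a else 0) else 0)) := by
    intro w
    unfold addE
    by_cases hua : u = a
    · subst hua
      by_cases hwb : w = b
      · subst hwb
        have : ¬ w = u := fun h => hab h.symm
        simp [hab, this]
        ring
      · simp [hab, hwb]
    · by_cases hub : u = b
      · subst hub
        by_cases hwa : w = a
        · subst hwa
          simp [hab, hab.symm]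
          ring
        · simp [hab.symm, hwa]
      · simp [hua, hub]
  rw [Finset.sum_congr rfl fun w _ => h1 w, Finset.sum_add_distrib, Finset.sum_add_distrib]
  congr 1
  rw [Finset.sum_ite_eq', Finset.sum_ite_eq', if_pos (mem_univ _), if_pos (mem_univ _)]

lemma absorb_inv {n : ℕ} {F : Type*} [Field F] [CharP F 2] {A P : Matrix (Fin n) (Fin n) F}
    (hs : ∀ u v, A u v = A v u) (h0 : ∀ v, A v v = 0) (hAP : A * P = 1) {a b : Fin n}
    (hab : a ≠ b) (σ : F) (h : 1 + σ * P a b ≠ 0) (u v : Fin n) :
    (addE a b σ A)⁻¹ u v = P u v + σ / (1 + σ * P a b) * (P u a * P b v + P u b * P a v) := by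
  set t := σ / (1 + σ * P a b) with ht
  have ht1 : t * (1 + σ * P a b) = σ := div_mul_cancel₀ _ h
  have hPs := inv_symm hs hAP
  have hPd := inv_diag hs h0 hAP
  set Q : Matrix (Fin n) (Fin n) F := Matrix.of fun u v =>
    P u v + t * (P u a * P b v + P u b * P a v) with hQ
  have hrow : ∀ u v, ∑ w, A u w * P w v = if u = v then 1 else 0 := by
    intro u v
    have := congrFun (congrFun hAP u) v
    rwa [Matrix.mul_apply, Matrix.one_apply] at this
  have h2 : (2 : F) = 0 := CharTwo.two_eq_zero
  have key : addE a b σ A * Q = 1 := by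
    ext u v
    rw [Matrix.mul_apply, Matrix.one_apply, addE_apply_sum hab]
    have e1 : ∑ w, A u w * Q w v = (if u = v then 1 else 0) +
        t * ((if u = a then 1 else 0) * P b v + (if u = b then 1 else 0) * P a v) := by
      have : ∀ w, A u w * Q w v = A u w * P w v + t * ((A u w * P w a) * P b v +
          (A u w * P w b) * P a v) := by
        intro w
        rw [hQ, Matrix.of_apply]
        ring
      rw [Finset.sum_congr rfl fun w _ => this w, Finset.sum_add_distrib, ← Finset.mul_sum,
        Finset.sum_add_distrib, ← Finset.sum_mul, ← Finset.sum_mul, hrow, hrow, hrow]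
    have eb : Q b v = P b v * (1 + t * P a b) := by
      rw [hQ, Matrix.of_apply, hPd b, hPs b a]
      ring
    have ea : Q a v = P a v * (1 + t * P a b) := by
      rw [hQ, Matrix.of_apply, hPd a]
      ring
    rw [e1, ea, eb]
    have p1 : t * ((if u = a then 1 else 0) * P b v) +
        (if u = a then σ * (P b v * (1 + t * P a b)) else 0) = 0 := by
      split_ifs
      · linear_combination (P b v) * ht1 + (σ * P b v) * h2
      · ring
    have p2 : t * ((if u = b then 1 else 0) * P a v) +
        (if u = b then σ * (P a v * (1 + t * P a b)) else 0) = 0 := by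
      split_ifs
      · linear_combination (P a v) * ht1 + (σ * P a v) * h2
      · ring
    linear_combination p1 + p2
  rw [Matrix.inv_eq_right_inv key]
  rfl

section

variable {n m : ℕ} {K Ω : Type} [Field K] [Field Ω] [Algebra K Ω]
variable {e : Fin m × Bool → Fin n} {τ : Fin m → Ω} {A : Matrix (Fin n) (Fin n) K}

/-- The field generated by the parameters outside `T`. -/
noncomputable def FT (K : Type) [Field K] [Algebra K Ω] (τ : Fin m → Ω) (T : Finset (Fin m)) :
    IntermediateField K Ω :=
  IntermediateField.adjoin K (τ '' {i | i ∉ T})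

lemma AT_mem (T : Finset (Fin m)) (u v : Fin n) : AT e τ A T u v ∈ FT K τ T := by
  unfold AT addS
  refine add_mem (IntermediateField.algebraMap_mem _ _) (sum_mem fun i hi => ?_)
  split_ifs
  · exact IntermediateField.subset_adjoin _ _ ⟨i, by simpa using hi, rfl⟩
  · exact zero_mem _

lemma inv_mem {L : IntermediateField K Ω} {M : Matrix (Fin n) (Fin n) Ω}
    (hM : ∀ u v, M u v ∈ L) (u v : Fin n) : M⁻¹ u v ∈ L := by
  let N : Matrix (Fin n) (Fin n) L := fun u v => ⟨M u v, hM u v⟩
  have hN : N.map (algebraMap L Ω) = M := by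
    ext u v
    rfl
  have h1 : M⁻¹ = (N⁻¹).map (algebraMap L Ω) := by
    rw [← hN]
    by_cases hd : IsUnit N.det
    · symm
      have h2 : N.map (algebraMap L Ω) * (N⁻¹).map (algebraMap L Ω) = 1 := by
        rw [← Matrix.map_mul, Matrix.mul_nonsing_inv N hd]
        simp
      exact (Matrix.inv_eq_right_inv h2).symm
    · have hd0 : N.det = 0 := by
        by_contra h
        exact hd (isUnit_iff_ne_zero.mpr h)
      have hd1 : (N.map (algebraMap L Ω)).det = 0 := by
        rw [← RingHom.mapMatrix_apply, ← RingHom.map_det, hd0, map_zero]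
      rw [Matrix.nonsing_inv_apply_not_isUnit _ (by rw [hd1]; simp),
        Matrix.nonsing_inv_apply_not_isUnit _ hd]
      ext
      simp
  rw [h1]
  exact (N⁻¹ u v).2

lemma tau_transc (hτ : AlgebraicIndependent K τ) {T : Finset (Fin m)} {b : Fin m} (hb : b ∈ T) :
    Transcendental (FT K τ T) (τ b) := by
  unfold FT
  rw [IntermediateField.transcendental_adjoin_iff]
  exact hτ.transcendental_adjoin (by simpa using hb)

lemma transc_mobius {L : IntermediateField K Ω} [CharP Ω 2] {x p : Ω} (hx : Transcendental L x)
    (hp : p ∈ L) : 1 + x * p ≠ 0 ∧ Transcendental L (x / (1 + x * p)) := by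
  have hpa : IsAlgebraic L p := isAlgebraic_algebraMap (⟨p, hp⟩ : L)
  have h2 : (2 : Ω) = 0 := CharTwo.two_eq_zero
  have hne : 1 + x * p ≠ 0 := by
    intro h
    have hp0 : p ≠ 0 := by
      rintro rfl
      rw [mul_zero, add_zero] at h
      exact one_ne_zero h
    have : x = p⁻¹ := by
      field_simp
      linear_combination h - h2
    exact hx (this ▸ hpa.inv)
  refine ⟨hne, fun ht => ?_⟩
  set t := x / (1 + x * p) with htd
  have h1 : t * (1 + x * p) = x := div_mul_cancel₀ _ hne
  have h3 : 1 + t * p ≠ 0 := by
    intro h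
    have : (1 + x * p) * (1 + t * p) = 1 := by
      linear_combination (p) * h1 + (x * p) * h2
    rw [h, mul_zero] at this
    exact zero_ne_one this
  have h4 : x = t / (1 + t * p) := by
    rw [eq_div_iff h3]
    linear_combination (-1 : Ω) * h1 + (t * x * p) * h2
  have : IsAlgebraic L (t / (1 + t * p)) := by
    rw [div_eq_mul_inv]
    exact ht.mul ((isAlgebraic_one.add (ht.mul hpa)).inv)
  exact hx (h4 ▸ this)

lemma generic_of_transc [Algebra (ZMod 2) Ω] {L : IntermediateField K Ω} {X : Set Ω}
    (hX : ∀ x ∈ X, x ∈ L) {t : Ω} (ht : Transcendental L t) : Generic X t := by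
  unfold Generic
  intro halg
  apply ht
  obtain ⟨q, hq0, hq⟩ := halg
  have hle : ∀ z ∈ Algebra.adjoin (ZMod 2) X, z ∈ L := by
    intro z hz
    induction hz using Algebra.adjoin_induction with
    | mem x hx => exact hX x hx
    | algebraMap r =>
      have : algebraMap (ZMod 2) Ω r = ((r.val : ℕ) : Ω) := by
        conv_lhs => rw [← ZMod.natCast_zmod_val r, map_natCast]
      rw [this]
      exact natCast_mem L _
    | add x y _ _ hx hy => exact add_mem hx hy
    | mul x y _ _ hx hy => exact mul_mem hx hy
  let φ : Algebra.adjoin (ZMod 2) X →+* L :=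
    { toFun := fun z => ⟨z, hle z z.2⟩
      map_one' := rfl
      map_mul' := fun _ _ => rfl
      map_zero' := rfl
      map_add' := fun _ _ => rfl }
  have hφ : Function.Injective φ := by
    intro a b hab
    apply Subtype.ext
    exact congrArg (fun z : L => (z : Ω)) hab
  refine ⟨q.map φ, (Polynomial.map_ne_zero_iff hφ).mpr hq0, ?_⟩
  rw [Polynomial.aeval_def, Polynomial.eval₂_map]
  rw [Polynomial.aeval_def] at hq
  exact hq

end

end Pool.Agent.Lib.MP_0c183c_h75B
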