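import Pool.Agent.Lib.MP_0c183c_h75B.BO
import Pool.Agent.Lib.MP_0c183c_P9A.Final

/-! # Recognition of Pfaffian graphs in polynomial time, given that there is no limit structure -/

set_option autoImplicit false

namespace Pool.Agent.Lib.MP_0c183c_h75B

open Pool.Agent.Lib.PolyTree Pool.Agent.Lib.FOLFP Turing

open Classical in
/-- If there is no limit structure, Pfaffian graphs are recognised by a deterministic Turing machine
in polynomial time. -/
theorem machine_of_no_world (hW : Pool.Agent.Lib.MP_0c183c_co_P9W.World → False) :
    ∃ M : TM2ComputableInPolyTime Graph.encode id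
        (fun I : Graph => [decide (Pool.Agent.Lib.MP_0c183c_co.IsPfaffian I.G)]),
      ∀ k, Finite (M.tm.Γ k) :=
  MP_0c183c_P9A.machine_of_bok (bok_of_no_world hW _)

end Pool.Agent.Lib.MP_0c183c_h75B
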