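import Pool.Agent.Lib.MP_0c183c_h75B.Fam
import Pool.Agent.Lib.MP_0c183c_co_P9W.World

/-! # A completion of corank six gives a matrix of corank six -/

set_option autoImplicit false

namespace Pool.Agent.Lib.MP_0c183c_h75B

open Pool.Agent.Lib.MP_0c183c_co Pool.Agent.Lib.MP_0c183c_co_P9W Matrix Finset

section inv

variable {V : Type*} [Fintype V] [DecidableEq V] {K : Type*} [Field K]

lemma inv_symm {A P : Matrix V V K} (hs : ∀ u v, A u v = A v u) (hAP : A * P = 1) (u t : V) :
    P u t = P t u := by
  have hA' : Aᵀ = A := by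
    ext i j
    exact hs j i
  have h1 : Pᵀ * A = 1 := by
    rw [← hA', ← Matrix.transpose_mul, hAP, Matrix.transpose_one]
  have h2 : Pᵀ = P := by
    calc Pᵀ = Pᵀ * (A * P) := by rw [hAP, Matrix.mul_one]
      _ = P := by rw [← Matrix.mul_assoc, h1, Matrix.one_mul]
  exact (congrFun (congrFun h2 u) t).symm

omit [DecidableEq V] in
lemma alt_form [CharP K 2] {A : Matrix V V K} (hs : ∀ u v, A u v = A v u) (h0 : ∀ v, A v v = 0)
    (x : V → K) : ∑ i, ∑ j, x i * A i j * x j = 0 := by
  rw [← sum_product']
  refine sum_involution (fun p _ => (p.2, p.1)) ?_ ?_ (fun _ _ => mem_univ _) (fun _ _ => rfl)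
  · intro p _
    simp only
    rw [hs p.2 p.1, show x p.2 * A p.1 p.2 * x p.1 = x p.1 * A p.1 p.2 * x p.2 by ring]
    exact CharTwo.add_self_eq_zero _
  · intro p _ hne heq
    apply hne
    have : p.2 = p.1 := congrArg Prod.fst heq
    rw [this, h0, mul_zero, zero_mul]

lemma inv_diag [CharP K 2] {A P : Matrix V V K} (hs : ∀ u v, A u v = A v u)
    (h0 : ∀ v, A v v = 0) (hAP : A * P = 1) (v : V) : P v v = 0 := by
  have hPA : P * A = 1 := mul_eq_one_comm.mp hAP
  have h1 : P v v = ∑ i, ∑ j, P v i * A i j * P v j := by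
    have h2 : P * A * P = P := by rw [hPA, Matrix.one_mul]
    calc P v v = (P * A * P) v v := by rw [h2]
      _ = ∑ j, ∑ i, P v i * A i j * P v j := by
          rw [Matrix.mul_apply]
          refine sum_congr rfl fun j _ => ?_
          rw [Matrix.mul_apply, sum_mul, inv_symm hs hAP j v]
      _ = _ := sum_comm
  rw [h1]
  exact alt_form hs h0 _

end inv

section

variable {n m : ℕ} {Ω : Type} [Field Ω] {e : Fin m × Bool → Fin n}

lemma isPair_iff (he : Function.Injective e) {i j : Fin m} {a : Bool} {w : Fin n} :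
    IsPair e j (e (i, a)) w ↔ j = i ∧ w = e (i, !a) := by
  constructor
  · intro h
    obtain ⟨b, h1, h2⟩ := h.left
    have := he h1
    rw [Prod.mk.injEq] at this
    obtain ⟨rfl, rfl⟩ := this
    exact ⟨rfl, h2⟩
  · rintro ⟨rfl, rfl⟩
    cases a
    · exact Or.inl ⟨rfl, rfl⟩
    · exact Or.inr ⟨rfl, rfl⟩

/-- Extension of a vector by zero. -/
noncomputable def extV (e : Fin m × Bool → Fin n) (T : Finset (Fin m)) (g : T × Bool → Ω) :
    Fin n → Ω := fun v => ∑ y : T × Bool, if v = e (y.1, y.2) then g y else 0

lemma extV_apply (he : Function.Injective e) (T : Finset (Fin m)) (g : T × Bool → Ω)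
    (y : T × Bool) : extV e T g (e (y.1, y.2)) = g y := by
  unfold extV
  rw [Finset.sum_eq_single y]
  · rw [if_pos rfl]
  · intro z _ hz
    rw [if_neg]
    intro h
    apply hz
    have := he h
    rw [Prod.mk.injEq] at this
    ext
    · exact congrArg Fin.val this.1.symm
    · rw [this.2]
  · intro h
    exact absurd (mem_univ y) h

lemma extV_zero (T : Finset (Fin m)) (g : T × Bool → Ω) {v : Fin n}
    (hv : ∀ i ∈ T, ∀ a, v ≠ e (i, a)) : extV e T g v = 0 := by
  unfold extV
  exact Finset.sum_eq_zero fun y _ => if_neg (hv y.1 y.1.2 y.2)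

lemma mulVec_extV (T : Finset (Fin m)) (P : Matrix (Fin n) (Fin n) Ω) (g : T × Bool → Ω)
    (v : Fin n) : (P.mulVec (extV e T g)) v = ∑ y : T × Bool, P v (e (y.1, y.2)) * g y := by
  simp only [Matrix.mulVec, dotProduct, extV, Finset.mul_sum]
  rw [Finset.sum_comm]
  refine Finset.sum_congr rfl fun y _ => ?_
  rw [Finset.sum_eq_single (e (y.1, y.2))]
  · rw [if_pos rfl]
  · intro w _ hw
    rw [if_neg hw, mul_zero]
  · intro h
    exact absurd (mem_univ _) h

/-- A completion of corank six gives a matrix of corank six. -/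
theorem cork_transfer [CharP Ω 2] (he : Function.Injective e) {A P : Matrix (Fin n) (Fin n) Ω}
    (hs : ∀ u v, A u v = A v u) (h0 : ∀ v, A v v = 0) (hAP : A * P = 1) (T : Finset (Fin m))
    (θ : Fin m → Ω)
    (hN : (completed T (fun x y => P (e x) (e y)) θ).rank + 6 ≤ 2 * T.card)
    (Z : Finset (Fin m)) (hZ : ∀ i, i ∈ Z ↔ i ∈ T ∧ θ i + P (e (i, false)) (e (i, true)) = 0) :
    Cork6 (isoS e Z (addS e (T \ Z) (fun i => (θ i + P (e (i, false)) (e (i, true)))⁻¹) A)) := by
  set φ : Fin m → Ω := fun i => θ i + P (e (i, false)) (e (i, true)) with hφ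
  set N := completed T (fun x y => P (e x) (e y)) θ with hNdef
  have hPs := inv_symm hs hAP
  have hPd := inv_diag hs h0 hAP
  let Φ : (T × Bool → Ω) →ₗ[Ω] (Fin n → Ω) :=
    { toFun := fun g => P.mulVec (extV e T g)
      map_add' := by
        intro a b
        ext v
        rw [Pi.add_apply, mulVec_extV, mulVec_extV, mulVec_extV, ← Finset.sum_add_distrib]
        exact Finset.sum_congr rfl fun y _ => by rw [Pi.add_apply]; ring
      map_smul' := by
        intro c a
        ext v
        rw [Pi.smul_apply, mulVec_extV, mulVec_extV, RingHom.id_apply, smul_eq_mul, Finset.mul_sum]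
        exact Finset.sum_congr rfl fun y _ => by rw [Pi.smul_apply, smul_eq_mul]; ring }
  have hAΦ : ∀ g, A.mulVec (Φ g) = extV e T g := by
    intro g
    change A.mulVec (P.mulVec (extV e T g)) = _
    rw [Matrix.mulVec_mulVec, hAP, Matrix.one_mulVec]
  have hΦ : Function.Injective Φ := by
    intro g h hgh
    have h1 := hAΦ g
    rw [hgh, hAΦ h] at h1
    ext y
    rw [← extV_apply he T g y, ← extV_apply he T h y, h1]
  refine ⟨(LinearMap.ker N.mulVecLin).map Φ, ?_, ?_⟩
  · rw [← (Submodule.equivMapOfInjective Φ hΦ (LinearMap.ker N.mulVecLin)).finrank_eq]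
    have h1 := LinearMap.finrank_range_add_finrank_ker N.mulVecLin
    have h2 : Module.finrank Ω (LinearMap.range N.mulVecLin) = N.rank := rfl
    have h3 : Module.finrank Ω (T × Bool → Ω) = 2 * T.card := by
      simp [mul_comm]
    omega
  · rintro _ ⟨g, hg, rfl⟩
    have hg' : N.mulVec g = 0 := hg
    -- the values of `x` on the edges
    have hx : ∀ (i : T) (a : Bool), (Φ g) (e (i, a)) = φ i * g (i, !a) := by
      intro i a
      have h1 : (Φ g) (e (i, a)) = ∑ y : T × Bool, P (e (i, a)) (e (y.1, y.2)) * g y :=
        mulVec_extV T P g _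
      have h2 : ∑ y : T × Bool, N (i, a) y * g y = 0 := congrFun hg' (i, a)
      have h3 : ∀ y : T × Bool, P (e (i, a)) (e (y.1, y.2)) * g y - N (i, a) y * g y =
          if y = (i, !a) then φ i * g (i, !a) else 0 := by
        rintro ⟨j, b⟩
        rw [hNdef]
        unfold completed
        by_cases hij : j = i
        · subst hij
          by_cases hab : b = a
          · subst hab
            have hne : ¬ ((j, b) : T × Bool) = (j, !b) := by
              intro h
              have := (Prod.ext_iff.mp h).2
              cases b <;> simp at this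
            rw [if_neg hne, hPd]
            simp
          · have hb : b = !a := by
              cases a <;> cases b <;> simp_all
            subst hb
            have hPφ : P (e (j, a)) (e (j, !a)) = φ j - θ j := by
              simp only [hφ]
              cases a
              · simp
              · rw [hPs]
                simp
            have hθ : θ (j : Fin m) + θ (j : Fin m) = 0 := CharTwo.add_self_eq_zero _
            simp only [if_true, hPφ]
            rw [if_neg (by cases a <;> simp)]
            linear_combination (-(g (j, !a))) * hθ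
        · have hji : ¬ i = j := fun h => hij h.symm
          have hne : ¬ ((j, b) : T × Bool) = (i, !a) := by
            intro h
            exact hij (Prod.ext_iff.mp h).1
          simp only [if_neg hji, if_neg hne]
          ring
      have h4 : (Φ g) (e (i, a)) - 0 = ∑ y : T × Bool,
          (if y = (i, !a) then φ i * g (i, !a) else 0) := by
        rw [h1]
        conv_lhs => rw [← h2]
        rw [← Finset.sum_sub_distrib]
        exact Finset.sum_congr rfl fun y _ => h3 y
      rw [sub_zero] at h4
      rw [h4, Finset.sum_ite_eq', if_pos (mem_univ _)]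
    have hxZ : ∀ i ∈ Z, ∀ a, (Φ g) (e (i, a)) = 0 := by
      intro i hi a
      have hiT : i ∈ T := ((hZ i).mp hi).1
      have hi0 : φ i = 0 := ((hZ i).mp hi).2
      have := hx ⟨i, hiT⟩ a
      rw [this]
      simp only
      rw [hi0, zero_mul]
    ext v
    rw [Pi.zero_apply]
    by_cases hv : ∃ i ∈ Z, ∃ a, v = e (i, a)
    · obtain ⟨i, hi, a, rfl⟩ := hv
      simp only [Matrix.mulVec, dotProduct]
      refine Finset.sum_eq_zero fun w _ => ?_
      by_cases hw : w = e (i, !a)
      · rw [hw, hxZ i hi, mul_zero]
      · have h1 : ¬ ∃ j ∈ Z, IsPair e j (e (i, a)) w := by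
          rintro ⟨j, _, hj⟩
          exact hw ((isPair_iff he).mp hj).2
        have h2 : ∃ j ∈ Z, ∃ b, e (i, a) = e (j, b) ∨ w = e (j, b) := ⟨i, hi, a, Or.inl rfl⟩
        unfold isoS
        rw [if_neg h1, if_pos h2, zero_mul]
    · push Not at hv
      have h1 : ∀ w, isoS e Z (addS e (T \ Z) (fun i => (φ i)⁻¹) A) v w * (Φ g) w =
          (A v w + ∑ i ∈ T \ Z, if IsPair e i v w then (φ i)⁻¹ else 0) * (Φ g) w := by
        intro w
        by_cases hw : ∃ j ∈ Z, ∃ b, w = e (j, b)
        · obtain ⟨j, hj, b, rfl⟩ := hw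
          rw [hxZ j hj, mul_zero, mul_zero]
        · push Not at hw
          have h2 : ¬ ∃ j ∈ Z, IsPair e j v w := by
            rintro ⟨j, hj, hj'⟩
            obtain ⟨b, hb, _⟩ := hj'.left
            exact hv j hj b hb
          have h3 : ¬ ∃ j ∈ Z, ∃ b, v = e (j, b) ∨ w = e (j, b) := by
            rintro ⟨j, hj, b, hb | hb⟩
            · exact hv j hj b hb
            · exact hw j hj b hb
          unfold isoS
          rw [if_neg h2, if_neg h3]
          rfl
      simp only [Matrix.mulVec, dotProduct]
      rw [Finset.sum_congr rfl fun w _ => h1 w]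
      simp only [add_mul, Finset.sum_add_distrib]
      have h2 : ∑ w, A v w * (Φ g) w = extV e T g v := congrFun (hAΦ g) v
      rw [h2]
      have h3 : ∑ w, (∑ i ∈ T \ Z, if IsPair e i v w then (φ i)⁻¹ else 0) * (Φ g) w =
          ∑ i ∈ T \ Z, ∑ w, (if IsPair e i v w then (φ i)⁻¹ else 0) * (Φ g) w := by
        rw [Finset.sum_comm]
        exact Finset.sum_congr rfl fun w _ => Finset.sum_mul _ _ _
      rw [h3]
      by_cases hvT : ∃ i ∈ T, ∃ a, v = e (i, a)
      · obtain ⟨i, hi, a, rfl⟩ := hvT
        have hiZ : i ∉ Z := fun h => hv i h a rfl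
        have hφi : φ i ≠ 0 := fun h => hiZ ((hZ i).mpr ⟨hi, h⟩)
        rw [Finset.sum_eq_single i, Finset.sum_eq_single (e (i, !a))]
        · rw [if_pos ((isPair_iff he).mpr ⟨rfl, rfl⟩)]
          have h4 := extV_apply he T g (⟨i, hi⟩, a)
          simp only at h4
          have h5 := hx ⟨i, hi⟩ (!a)
          simp only [Bool.not_not] at h5
          rw [h4, h5, ← mul_assoc, inv_mul_cancel₀ hφi, one_mul, CharTwo.add_self_eq_zero]
        · intro w _ hw
          rw [if_neg, zero_mul]
          intro h
          exact hw ((isPair_iff he).mp h).2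
        · intro h
          exact absurd (mem_univ _) h
        · intro j _ hj
          refine Finset.sum_eq_zero fun w _ => ?_
          rw [if_neg, zero_mul]
          intro h
          exact hj ((isPair_iff he).mp h).1
        · intro h
          exact absurd (Finset.mem_sdiff.mpr ⟨hi, hiZ⟩) h
      · push Not at hvT
        rw [extV_zero T g hvT, zero_add]
        refine Finset.sum_eq_zero fun i hi => Finset.sum_eq_zero fun w _ => ?_
        rw [if_neg, zero_mul]
        intro h
        obtain ⟨b, hb, _⟩ := h.left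
        exact hvT i (Finset.mem_sdiff.mp hi).1 b hb

end

end Pool.Agent.Lib.MP_0c183c_h75B
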