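import Pool.Agent.Lib.MP_0c183c_h75B.Iso

/-! # Adding weights to a family of disjoint edges -/

set_option autoImplicit false

namespace Pool.Agent.Lib.MP_0c183c_h75B

open Pool.Agent.Lib.MP_0c183c_co Matrix Finset

section

variable {n m : ℕ} {R : Type*} [CommRing R]

/-- `u, v` are the two ends of the `i`-th edge. -/
def IsPair (e : Fin m × Bool → Fin n) (i : Fin m) (u v : Fin n) : Prop :=
  (u = e (i, false) ∧ v = e (i, true)) ∨ (u = e (i, true) ∧ v = e (i, false))

instance (e : Fin m × Bool → Fin n) (i : Fin m) (u v : Fin n) : Decidable (IsPair e i u v) := by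
  unfold IsPair
  infer_instance

/-- Isolate the edges in `Z`, with weight one. -/
def isoS (e : Fin m × Bool → Fin n) (Z : Finset (Fin m)) (A : Matrix (Fin n) (Fin n) R) :
    Matrix (Fin n) (Fin n) R := fun u v =>
  if ∃ i ∈ Z, IsPair e i u v then 1
  else if ∃ i ∈ Z, ∃ a, u = e (i, a) ∨ v = e (i, a) then 0 else A u v

/-- Add `σ i` to the weight of the `i`-th edge, for all `i ∈ W`. -/
def addS (e : Fin m × Bool → Fin n) (W : Finset (Fin m)) (σ : Fin m → R)
    (A : Matrix (Fin n) (Fin n) R) : Matrix (Fin n) (Fin n) R := fun u v =>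
  A u v + ∑ i ∈ W, if IsPair e i u v then σ i else 0

variable {e : Fin m × Bool → Fin n}

lemma IsPair.symm {i : Fin m} {u v : Fin n} (h : IsPair e i u v) : IsPair e i v u := by
  rcases h with ⟨h1, h2⟩ | ⟨h1, h2⟩
  · exact Or.inr ⟨h2, h1⟩
  · exact Or.inl ⟨h2, h1⟩

lemma isPair_comm {i : Fin m} {u v : Fin n} : IsPair e i u v ↔ IsPair e i v u :=
  ⟨IsPair.symm, IsPair.symm⟩

lemma IsPair.left {i : Fin m} {u v : Fin n} (h : IsPair e i u v) : ∃ a, u = e (i, a) ∧
    v = e (i, !a) := by
  rcases h with ⟨h1, h2⟩ | ⟨h1, h2⟩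
  · exact ⟨false, h1, h2⟩
  · exact ⟨true, h1, h2⟩

lemma IsPair.unique (he : Function.Injective e) {i j : Fin m} {u v w : Fin n}
    (h : IsPair e i u v) (h' : IsPair e j u w) : i = j := by
  obtain ⟨a, h1, _⟩ := h.left
  obtain ⟨b, h2, _⟩ := h'.left
  have := he (h1.symm.trans h2)
  exact (Prod.ext_iff.mp this).1

lemma isoS_empty (A : Matrix (Fin n) (Fin n) R) : isoS e ∅ A = A := by
  ext u v
  simp [isoS]

lemma addS_empty (σ : Fin m → R) (A : Matrix (Fin n) (Fin n) R) : addS e ∅ σ A = A := by
  ext u v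
  simp [addS]

lemma iso_isoS (he : Function.Injective e) {Z : Finset (Fin m)} {i : Fin m} (hi : i ∉ Z)
    (A : Matrix (Fin n) (Fin n) R) :
    iso (e (i, false)) (e (i, true)) (isoS e Z A) = isoS e (insert i Z) A := by
  ext u v
  by_cases h1 : IsPair e i u v
  · have h2 : ∃ j ∈ insert i Z, IsPair e j u v := ⟨i, mem_insert_self _ _, h1⟩
    have h1' : (u = e (i, false) ∧ v = e (i, true)) ∨ (u = e (i, true) ∧ v = e (i, false)) := h1
    have h3 : iso (e (i, false)) (e (i, true)) (isoS e Z A) u v = 1 := by
      simp only [iso]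
      rw [if_pos h1']
    rw [h3, isoS, if_pos h2]
  · have h1' : ¬ ((u = e (i, false) ∧ v = e (i, true)) ∨
        (u = e (i, true) ∧ v = e (i, false))) := h1
    by_cases h2 : ∃ a, u = e (i, a) ∨ v = e (i, a)
    · have h3 : iso (e (i, false)) (e (i, true)) (isoS e Z A) u v = 0 := by
        simp only [iso]
        rw [if_neg h1', if_pos]
        obtain ⟨a, ha⟩ := h2
        cases a <;> tauto
      have h4 : ¬ ∃ j ∈ insert i Z, IsPair e j u v := by
        rintro ⟨j, _, hj⟩
        obtain ⟨a, ha⟩ := h2
        obtain ⟨b, hb1, hb2⟩ := hj.left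
        rcases ha with ha | ha
        · have := he (hb1.symm.trans ha)
          have hji : j = i := (Prod.ext_iff.mp this).1
          exact h1 (hji ▸ hj)
        · have := he (hb2.symm.trans ha)
          have hji : j = i := (Prod.ext_iff.mp this).1
          exact h1 (hji ▸ hj)
      rw [h3, isoS, if_neg h4, if_pos]
      obtain ⟨a, ha⟩ := h2
      exact ⟨i, mem_insert_self _ _, a, ha⟩
    · have h3 : iso (e (i, false)) (e (i, true)) (isoS e Z A) u v = isoS e Z A u v := by
        simp only [iso]
        rw [if_neg h1', if_neg]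
        push Not at h2
        have hf := h2 false
        have ht := h2 true
        tauto
      rw [h3]
      unfold isoS
      have e1 : (∃ j ∈ insert i Z, IsPair e j u v) ↔ ∃ j ∈ Z, IsPair e j u v := by
        constructor
        · rintro ⟨j, hj, hj'⟩
          rcases mem_insert.mp hj with rfl | hj
          · exact absurd hj' h1
          · exact ⟨j, hj, hj'⟩
        · rintro ⟨j, hj, hj'⟩
          exact ⟨j, mem_insert_of_mem hj, hj'⟩
      have e2 : (∃ j ∈ insert i Z, ∃ a, u = e (j, a) ∨ v = e (j, a)) ↔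
          ∃ j ∈ Z, ∃ a, u = e (j, a) ∨ v = e (j, a) := by
        constructor
        · rintro ⟨j, hj, hj'⟩
          rcases mem_insert.mp hj with rfl | hj
          · exact absurd hj' h2
          · exact ⟨j, hj, hj'⟩
        · rintro ⟨j, hj, hj'⟩
          exact ⟨j, mem_insert_of_mem hj, hj'⟩
      rw [if_congr e1 rfl (if_congr e2 rfl rfl)]

lemma addE_addS (he : Function.Injective e) {W : Finset (Fin m)} {i : Fin m} (hi : i ∉ W)
    (σ : Fin m → R) (A : Matrix (Fin n) (Fin n) R) :
    addE (e (i, false)) (e (i, true)) (σ i) (addS e W σ A) = addS e (insert i W) σ A := by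
  ext u v
  unfold addE addS
  rw [Finset.sum_insert hi]
  by_cases h1 : IsPair e i u v
  · have h2 : ∑ j ∈ W, (if IsPair e j u v then σ j else 0) = 0 := by
      refine Finset.sum_eq_zero fun j hj => ?_
      rw [if_neg]
      intro h
      exact hi (IsPair.unique he h1 h ▸ hj)
    have h3 : (u = e (i, false) ∧ v = e (i, true)) ∨ (u = e (i, true) ∧ v = e (i, false)) := h1
    rw [if_pos h3, if_pos h1, h2]
    ring
  · have h3 : ¬ ((u = e (i, false) ∧ v = e (i, true)) ∨ (u = e (i, true) ∧ v = e (i, false))) := h1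
    rw [if_neg h3, if_neg h1, zero_add]

lemma isoS_addE (he : Function.Injective e) {Z : Finset (Fin m)} {i : Fin m} (hi : i ∉ Z) (σ : R)
    (A : Matrix (Fin n) (Fin n) R) :
    isoS e Z (addE (e (i, false)) (e (i, true)) σ A) =
      addE (e (i, false)) (e (i, true)) σ (isoS e Z A) := by
  ext u v
  by_cases h1 : IsPair e i u v
  · have h3 : (u = e (i, false) ∧ v = e (i, true)) ∨ (u = e (i, true) ∧ v = e (i, false)) := h1
    have h4 : ¬ ∃ j ∈ Z, IsPair e j u v := by
      rintro ⟨j, hj, hj'⟩
      exact hi (IsPair.unique he h1 hj' ▸ hj)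
    have h5 : ¬ ∃ j ∈ Z, ∃ a, u = e (j, a) ∨ v = e (j, a) := by
      rintro ⟨j, hj, a, ha⟩
      obtain ⟨b, hb1, hb2⟩ := h1.left
      rcases ha with ha | ha
      · have := he (hb1.symm.trans ha)
        have hij : i = j := (Prod.ext_iff.mp this).1
        exact hi (hij ▸ hj)
      · have := he (hb2.symm.trans ha)
        have hij : i = j := (Prod.ext_iff.mp this).1
        exact hi (hij ▸ hj)
    simp only [isoS, addE]
    rw [if_neg h4, if_neg h5, if_pos h3, if_pos h3, if_neg h4, if_neg h5]
  · have h3 : ¬ ((u = e (i, false) ∧ v = e (i, true)) ∨ (u = e (i, true) ∧ v = e (i, false))) := h1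
    simp only [isoS, addE]
    rw [if_neg h3, if_neg h3]

lemma isoS_symm {Z : Finset (Fin m)} {A : Matrix (Fin n) (Fin n) R} (hs : ∀ u v, A u v = A v u) :
    ∀ u v, isoS e Z A u v = isoS e Z A v u := by
  intro u v
  unfold isoS
  rw [hs u v]
  refine if_congr ?_ rfl (if_congr ?_ rfl rfl)
  · exact exists_congr fun i => and_congr_right fun _ => isPair_comm
  · exact exists_congr fun i => and_congr_right fun _ => exists_congr fun a => or_comm

lemma addS_symm {W : Finset (Fin m)} {σ : Fin m → R} {A : Matrix (Fin n) (Fin n) R}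
    (hs : ∀ u v, A u v = A v u) : ∀ u v, addS e W σ A u v = addS e W σ A v u := by
  intro u v
  unfold addS
  rw [hs u v]
  congr 1
  refine Finset.sum_congr rfl fun i _ => ?_
  rw [if_congr isPair_comm rfl rfl]

lemma isPair_irrefl (he : Function.Injective e) {i : Fin m} {v : Fin n} : ¬ IsPair e i v v := by
  intro h
  obtain ⟨a, h1, h2⟩ := h.left
  have := he (h1.symm.trans h2)
  have := (Prod.ext_iff.mp this).2
  simp at this

lemma isoS_diag (he : Function.Injective e) {Z : Finset (Fin m)} {A : Matrix (Fin n) (Fin n) R}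
    (h0 : ∀ v, A v v = 0) : ∀ v, isoS e Z A v v = 0 := by
  intro v
  unfold isoS
  rw [if_neg, h0]
  · simp
  · rintro ⟨i, _, hi⟩
    exact isPair_irrefl he hi

lemma addS_diag (he : Function.Injective e) {W : Finset (Fin m)} {σ : Fin m → R}
    {A : Matrix (Fin n) (Fin n) R} (h0 : ∀ v, A v v = 0) : ∀ v, addS e W σ A v v = 0 := by
  intro v
  unfold addS
  rw [h0, zero_add]
  exact Finset.sum_eq_zero fun i _ => if_neg (isPair_irrefl he)

/-- **Expansion**: if all coefficients of proper subfamilies vanish then only the full product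
survives. -/
theorem expand [CharP R 2] (he : Function.Injective e) (f : Equiv.Perm (Fin n) → R)
    {A : Matrix (Fin n) (Fin n) R} (hs : ∀ u v, A u v = A v u) (σ : Fin m → R)
    (h0 : ∀ S : Finset (Fin m), S ≠ univ → T f (isoS e S A) = 0) :
    ∀ (W Z : Finset (Fin m)), Disjoint W Z → T f (isoS e Z (addS e W σ A)) =
      if W ∪ Z = univ then (∏ i ∈ W, σ i ^ 2) * T f (isoS e univ A) else 0 := by
  intro W
  induction W using Finset.induction_on with
  | empty =>
    intro Z _
    rw [addS_empty, Finset.empty_union, Finset.prod_empty, one_mul]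
    split_ifs with h
    · rw [h]
    · exact h0 Z h
  | insert i W hi ih =>
    intro Z hd
    rw [Finset.disjoint_insert_left] at hd
    have hne : e (i, false) ≠ e (i, true) := fun h => by
      have := he h
      simp at this
    rw [← addE_addS he hi, isoS_addE he hd.1, T_addE f _ (isoS_symm (addS_symm hs)) hne,
      iso_isoS he hd.1, ih Z hd.2, ih (insert i Z) (by
        rw [Finset.disjoint_insert_right]
        exact ⟨hi, hd.2⟩)]
    have e1 : W ∪ Z ≠ univ := by
      intro h
      have : i ∈ W ∪ Z := by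
        rw [h]
        exact mem_univ i
      rcases Finset.mem_union.mp this with h' | h'
      · exact hi h'
      · exact hd.1 h'
    have e2 : W ∪ insert i Z = insert i W ∪ Z := by
      rw [Finset.union_insert, Finset.insert_union]
    rw [if_neg e1, e2, zero_add]
    split_ifs with h
    · rw [Finset.prod_insert hi]
      ring
    · rw [mul_zero]

end

end Pool.Agent.Lib.MP_0c183c_h75B
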