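import Pool.Agent.Lib.MP_0c183c_h75B.Kappa
import Pool.Agent.Lib.MP_0c183c_h75B.Core

/-! # Stuck matrices are generic for small minors -/

set_option autoImplicit false

namespace Pool.Agent.Lib.MP_0c183c_h75B

open Matrix Finset

section

variable {V K : Type*} [Field K]

lemma bordered {r : ℕ} (P : Matrix V V K) (x x' : Fin r → V)
    (hN : (P.submatrix x x').det ≠ 0) (u u' : V) :
    (P.submatrix (Sum.elim (fun _ : Unit => u) x) (Sum.elim (fun _ : Unit => u') x')).det =
      (P.submatrix x x').det * sch P x x' u u' := by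
  set N := P.submatrix x x' with hNdef
  have hNu : IsUnit N.det := isUnit_iff_ne_zero.mpr hN
  let _ : Invertible N := N.invertibleOfIsUnitDet hNu
  have hM : P.submatrix (Sum.elim (fun _ : Unit => u) x) (Sum.elim (fun _ : Unit => u') x') =
      Matrix.fromBlocks (Matrix.of fun (_ : Unit) (_ : Unit) => P u u')
        (Matrix.of fun (_ : Unit) j => P u (x' j)) (Matrix.of fun i (_ : Unit) => P (x i) u') N := by
    ext (i | i) (j | j) <;> rfl
  rw [hM, Matrix.det_fromBlocks₂₂]
  congr 1
  rw [Matrix.det_unique, Matrix.invOf_eq_nonsing_inv]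
  simp only [Matrix.sub_apply, Matrix.mul_apply, Matrix.of_apply, sch, Finset.sum_mul, ← hNdef]
  rw [Finset.sum_comm]

lemma sch_row {r : ℕ} (P : Matrix V V K) (x x' : Fin r → V)
    (hN : (P.submatrix x x').det ≠ 0) (j : Fin r) (v : V) : sch P x x' (x j) v = 0 := by
  have hNu : IsUnit (P.submatrix x x').det := isUnit_iff_ne_zero.mpr hN
  have h1 : ∀ k, ∑ i, P (x j) (x' i) * (P.submatrix x x')⁻¹ i k = (1 : Matrix _ _ K) j k := by
    intro k
    rw [← Matrix.mul_nonsing_inv _ hNu, Matrix.mul_apply]
    rfl
  unfold sch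
  rw [Finset.sum_comm]
  simp only [← Finset.sum_mul, h1, Matrix.one_apply, ite_mul, one_mul, zero_mul,
    Finset.sum_ite_eq, Finset.mem_univ, if_true, sub_self]

lemma sch_col {r : ℕ} (P : Matrix V V K) (x x' : Fin r → V)
    (hN : (P.submatrix x x').det ≠ 0) (i : Fin r) (v : V) : sch P x x' v (x' i) = 0 := by
  have hNu : IsUnit (P.submatrix x x').det := isUnit_iff_ne_zero.mpr hN
  have h1 : ∀ k, ∑ j, (P.submatrix x x')⁻¹ k j * P (x j) (x' i) = (1 : Matrix _ _ K) k i := by
    intro k
    rw [← Matrix.nonsing_inv_mul _ hNu, Matrix.mul_apply]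
    rfl
  unfold sch
  simp only [mul_assoc, ← Finset.mul_sum, h1, Matrix.one_apply, mul_ite, mul_one, mul_zero,
    Finset.sum_ite_eq', Finset.mem_univ, if_true, sub_self]

end

/-- **Stuck implies generic.** If all vanishing minors of size at most `c` of `P = A⁻¹` stay zero
along every edge, then they vanish for the inverse of every nonsingular symmetric matrix with zero
diagonal supported on the graph, over every field of characteristic two. -/
theorem generic_of_stuck {V K L : Type*} [Fintype V] [DecidableEq V] [Field K] [CharP K 2]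
    [Field L] [CharP L 2] (G : SimpleGraph V) (A P : Matrix V V K) (Z Q : Matrix V V L)
    (hA : IsAltOn G A) (hAP : A * P = 1) (hZ : IsAltOn G Z) (hZQ : Z * Q = 1) {c : ℕ}
    (hS : Stuck G P c) {k : ℕ} (hk : k ≤ c) (x x' : Fin k → V)
    (h : (P.submatrix x x').det = 0) : (Q.submatrix x x').det = 0 := by
  classical
  have hQsymm : Q.transpose = Q := by
    have hZt : Z.transpose = Z := by
      ext u v
      exact hZ.symm v u
    have h1 : Q.transpose * Z = 1 := by
      have := congrArg Matrix.transpose hZQ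
      rwa [Matrix.transpose_mul, hZt, Matrix.transpose_one] at this
    calc Q.transpose = Q.transpose * (Z * Q) := by rw [hZQ, Matrix.mul_one]
      _ = Q := by rw [← Matrix.mul_assoc, h1, Matrix.one_mul]
  let p : ℕ → Prop := fun r => ∃ a b : Fin r → Fin k,
    (P.submatrix (fun i => x (a i)) (fun i => x' (b i))).det ≠ 0
  have hp0 : p 0 := ⟨Fin.elim0, Fin.elim0, by simp [Matrix.det_fin_zero]⟩
  have hpk : ¬ p k := by
    rintro ⟨a, b, hab⟩
    have ha : Function.Injective a := by
      intro i j hij
      by_contra hne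
      exact hab (Matrix.det_zero_of_row_eq hne (by ext l; simp [hij]))
    have hb : Function.Injective b := by
      intro i j hij
      by_contra hne
      exact hab (Matrix.det_zero_of_column_eq hne fun l => by simp [hij])
    have hb' : Function.Bijective b := Finite.injective_iff_bijective.mp hb
    obtain ⟨w, hw0, hw⟩ := Matrix.exists_mulVec_eq_zero_iff.mpr h
    apply hab
    rw [← Matrix.exists_mulVec_eq_zero_iff]
    refine ⟨fun i => w (b i), ?_, ?_⟩
    · intro h0
      apply hw0
      ext i
      obtain ⟨j, rfl⟩ := hb'.2 i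
      exact congrFun h0 j
    · ext i
      have h1 := congrFun hw (a i)
      simp only [Matrix.mulVec, dotProduct, Matrix.submatrix_apply, Pi.zero_apply] at h1 ⊢
      rw [← h1]
      exact Fintype.sum_bijective b hb' _ _ fun _ => rfl
  have hex : ∃ n, ¬ p n := ⟨k, hpk⟩
  set m := Nat.find hex with hm
  have hmk : m ≤ k := Nat.find_min' hex hpk
  have hm0 : m ≠ 0 := fun h0 => by
    have := Nat.find_spec hex
    rw [← hm, h0] at this
    exact this hp0
  obtain ⟨ρ, hρ⟩ := Nat.exists_eq_succ_of_ne_zero hm0
  have hpρ : p ρ := by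
    by_contra hne
    have := Nat.find_min' hex hne
    omega
  have hpm : ¬ p (ρ + 1) := by
    have := Nat.find_spec hex
    rwa [← hm, hρ] at this
  obtain ⟨a, b, hab⟩ := hpρ
  set y : Fin ρ → V := fun i => x (a i) with hy
  set y' : Fin ρ → V := fun i => x' (b i) with hy'
  let e : Unit ⊕ Fin ρ ≃ Fin (ρ + 1) :=
    ((Equiv.sumCongr finOneEquiv.symm (Equiv.refl _)).trans finSumFinEquiv).trans
      (finCongr (Nat.add_comm 1 ρ))
  -- the bordered minors inside `x, x'` vanish
  have hxx : ∀ i j, sch P y y' (x i) (x' j) = 0 := by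
    intro i j
    have h1 := bordered P y y' hab (x i) (x' j)
    by_contra hne
    apply hpm
    refine ⟨fun l => Sum.elim (fun _ => i) a (e.symm l), fun l => Sum.elim (fun _ => j) b (e.symm l),
      ?_⟩
    have h2 : (P.submatrix (fun l => x (Sum.elim (fun _ => i) a (e.symm l)))
        (fun l => x' (Sum.elim (fun _ => j) b (e.symm l)))) =
        (P.submatrix (Sum.elim (fun _ : Unit => x i) y)
          (Sum.elim (fun _ : Unit => x' j) y')).submatrix e.symm e.symm := by
      ext l l'
      simp only [Matrix.submatrix_apply]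
      congr 1
      · rcases e.symm l with q | q <;> rfl
      · rcases e.symm l' with q | q <;> rfl
    rw [h2, Matrix.det_submatrix_equiv_self, h1]
    exact mul_ne_zero hab hne
  -- the first order condition
  have hkey : ∀ u u', sch P y y' u u' = 0 → ∀ v w, G.Adj v w →
      sch P y y' u v * sch P y y' w u' = sch P y y' u w * sch P y y' v u' := by
    intro u u' h0 v w hvw
    rw [← CharTwo.add_eq_zero]
    apply kappa P y y' hab u u' v w
    apply det_pE
    have h1 := bordered P y y' hab u u'
    rw [h0, mul_zero] at h1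
    have h2 := hS (ρ + 1) (by omega)
      (fun l => Sum.elim (fun _ : Unit => u) y (e.symm l))
      (fun l => Sum.elim (fun _ : Unit => u') y' (e.symm l)) (by
        rw [← h1]
        exact Matrix.det_submatrix_equiv_self e.symm (P.submatrix _ _)) v w hvw
    rw [← h2]
    exact (Matrix.det_submatrix_equiv_self e.symm ((pX P v w).submatrix _ _)).symm
  set C₁ : Finset V := univ.filter fun u => ∀ i, sch P y y' u (x' i) = 0 with hC₁
  set C₂ : Finset V := univ.filter fun v => ∀ u ∈ C₁, sch P y y' u v = 0 with hC₂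
  have m₁ : ∀ u, u ∈ C₁ ↔ ∀ i, sch P y y' u (x' i) = 0 := fun u => by simp [hC₁]
  have m₂ : ∀ v, v ∈ C₂ ↔ ∀ u ∈ C₁, sch P y y' u v = 0 := fun v => by simp [hC₂]
  have hxC : ∀ i, x i ∈ C₁ := fun i => (m₁ _).mpr fun j => hxx i j
  have hxC' : ∀ i, x' i ∈ C₂ := fun i => (m₂ _).mpr fun u hu => (m₁ u).mp hu i
  have D : Data G A P C₁ C₂ (sch P y y') ρ := by
    refine ⟨hA, hAP, ⟨y', fun i v => ∑ j, (P.submatrix y y')⁻¹ i j * P (y j) v, ?_, ?_⟩, ?_, m₂, ?_⟩
    · intro i
      rw [m₂]
      intro u _
      exact sch_col P y y' hab i u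
    · intro u v
      simp only [sch, Finset.mul_sum, ← mul_assoc, sub_add_cancel]
    · intro u hu u' hu' v w hvw
      exact hkey u u' ((m₂ u').mp hu' u hu) v w hvw
    · intro u
      constructor
      · intro hu v hv
        exact (m₂ v).mp hv u hu
      · intro hu
        rw [m₁]
        intro i
        exact hu _ (hxC' i)
  have hfin := D.final hZ hZQ (k := k) (by omega) x x' hxC hxC'
  rw [← Matrix.det_transpose, Matrix.transpose_submatrix, hQsymm] at hfin
  exact hfin

end Pool.Agent.Lib.MP_0c183c_h75B
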