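import Pool.Agent.Lib.MP_0c183c_co.CharTwo
import Pool.Agent.Lib.MP_0c183c_h75B.Core

/-! # Isolating pairs, adding weights to disjoint edges, vanishing at corank six -/

set_option autoImplicit false

namespace Pool.Agent.Lib.MP_0c183c_h75B

open Pool.Agent.Lib.MP_0c183c_co Matrix Finset

section

variable {n : ℕ} {R : Type*} [CommRing R]

/-- Isolate the pair `ab` with weight one. -/
def iso (a b : Fin n) (A : Matrix (Fin n) (Fin n) R) : Matrix (Fin n) (Fin n) R := fun u v =>
  if (u = a ∧ v = b) ∨ (u = b ∧ v = a) then 1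
  else if u = a ∨ u = b ∨ v = a ∨ v = b then 0 else A u v

/-- Isolate the pairs of a list. -/
def isoL (l : List (Fin n × Fin n)) (A : Matrix (Fin n) (Fin n) R) : Matrix (Fin n) (Fin n) R :=
  l.foldr (fun p B => iso p.1 p.2 B) A

/-- Add `σ` to the weight of the edge `ab`. -/
def addE (a b : Fin n) (σ : R) (A : Matrix (Fin n) (Fin n) R) : Matrix (Fin n) (Fin n) R :=
  fun u v => if (u = a ∧ v = b) ∨ (u = b ∧ v = a) then A u v + σ else A u v

lemma prod_two {a b : Fin n} (hab : a ≠ b) (g : Fin n → R) :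
    ∏ v, g v = g a * (g b * ∏ v ∈ (univ.erase a).erase b, g v) := by
  rw [← Finset.mul_prod_erase univ g (mem_univ a),
    ← Finset.mul_prod_erase (univ.erase a) g (mem_erase.mpr ⟨hab.symm, mem_univ b⟩)]

lemma T_addE [CharP R 2] (f : Equiv.Perm (Fin n) → R) (A : Matrix (Fin n) (Fin n) R)
    (hs : ∀ u v, A u v = A v u) {a b : Fin n} (hab : a ≠ b) (σ : R) :
    T f (addE a b σ A) = T f A + σ ^ 2 * T f (iso a b A) := by
  unfold T
  rw [Finset.mul_sum, ← Finset.sum_add_distrib]
  refine Finset.sum_congr rfl fun m hm => ?_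
  have hpm := mem_pms.mp hm
  by_cases h : m a = b
  · have hb : m b = a := by rw [← h, (hpm a).2]
    rw [prod_two hab (fun v => addE a b σ A v (m v)), prod_two hab (fun v => A v (m v)),
      prod_two hab (fun v => iso a b A v (m v))]
    have e1 : addE a b σ A a (m a) = A a b + σ := by simp [addE, h]
    have e2 : addE a b σ A b (m b) = A a b + σ := by
      rw [hb]
      simp [addE, hs b a]
    have e3 : iso a b A a (m a) = 1 := by simp [iso, h]
    have e4 : iso a b A b (m b) = 1 := by simp [iso, hb]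
    have e5 : ∏ v ∈ (univ.erase a).erase b, addE a b σ A v (m v) =
        ∏ v ∈ (univ.erase a).erase b, A v (m v) := by
      refine Finset.prod_congr rfl fun v hv => ?_
      have h1 : v ≠ b := (mem_erase.mp hv).1
      have h2 : v ≠ a := (mem_erase.mp (mem_erase.mp hv).2).1
      simp [addE, h1, h2]
    have e6 : ∏ v ∈ (univ.erase a).erase b, iso a b A v (m v) =
        ∏ v ∈ (univ.erase a).erase b, A v (m v) := by
      refine Finset.prod_congr rfl fun v hv => ?_
      have h1 : v ≠ b := (mem_erase.mp hv).1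
      have h2 : v ≠ a := (mem_erase.mp (mem_erase.mp hv).2).1
      have h3 : m v ≠ b := fun h' => h2 (m.injective (by rw [h', h]))
      have h4 : m v ≠ a := fun h' => h1 (m.injective (by rw [h', hb]))
      simp [iso, h1, h2, h3, h4]
    rw [e1, e2, e3, e4, e5, e6, h, hb, hs b a]
    have h20 : (2 : R) = 0 := CharTwo.two_eq_zero
    linear_combination (f m * A a b * σ * ∏ v ∈ (univ.erase a).erase b, A v (m v)) * h20
  · have hb : m b ≠ a := fun h' => h (by rw [← h', (hpm b).2])
    have e1 : ∏ v, addE a b σ A v (m v) = ∏ v, A v (m v) := by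
      refine Finset.prod_congr rfl fun v _ => ?_
      unfold addE
      rw [if_neg]
      rintro (⟨rfl, h2⟩ | ⟨rfl, h2⟩)
      · exact h h2
      · exact hb h2
    have e2 : ∏ v, iso a b A v (m v) = 0 := by
      refine Finset.prod_eq_zero (mem_univ a) ?_
      unfold iso
      rw [if_neg, if_pos (Or.inl rfl)]
      rintro (⟨_, h2⟩ | ⟨h1, _⟩)
      · exact h h2
      · exact hab h1
    rw [e1, e2]
    ring

lemma iso_symm {a b : Fin n} {A : Matrix (Fin n) (Fin n) R} (hs : ∀ u v, A u v = A v u) :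
    ∀ u v, iso a b A u v = iso a b A v u := by
  intro u v
  unfold iso
  rw [hs u v]
  congr 1
  · exact propext ⟨fun h => by tauto, fun h => by tauto⟩
  · congr 1
    exact propext ⟨fun h => by tauto, fun h => by tauto⟩

lemma iso_addE {a b c d : Fin n} {σ : R} {A : Matrix (Fin n) (Fin n) R} (h1 : a ≠ c) (h2 : a ≠ d)
    (h3 : b ≠ c) (h4 : b ≠ d) : iso a b (addE c d σ A) = addE c d σ (iso a b A) := by
  ext u v
  unfold iso addE
  by_cases hcd : (u = c ∧ v = d) ∨ (u = d ∧ v = c)
  · rw [if_pos hcd, if_pos hcd]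
    rcases hcd with ⟨rfl, rfl⟩ | ⟨rfl, rfl⟩ <;>
      simp [h1.symm, h2.symm, h3.symm, h4.symm]
  · rw [if_neg hcd, if_neg hcd]

end

section vanish

variable {n : ℕ} {K : Type*} [Field K]

/-- The matrix has a kernel of dimension at least six. -/
def Cork6 {ι : Type*} [Fintype ι] (A : Matrix ι ι K) : Prop :=
  ∃ S : Submodule K (ι → K), 6 ≤ Module.finrank K S ∧ ∀ g ∈ S, A.mulVec g = 0

lemma Cork6.exists_four {A : Matrix (Fin n) (Fin n) K} (h : Cork6 A) (i k j l : Fin n) :
    ∃ g : Fin n → K, g ≠ 0 ∧ A.mulVec g = 0 ∧ g i = 0 ∧ g k = 0 ∧ g j = 0 ∧ g l = 0 := by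
  obtain ⟨S, hS, hA⟩ := h
  let φ : S →ₗ[K] (Fin 4 → K) :=
    { toFun := fun g => ![(g : Fin n → K) i, (g : Fin n → K) k, (g : Fin n → K) j,
        (g : Fin n → K) l]
      map_add' := by
        intro a b
        ext t
        fin_cases t <;> simp
      map_smul' := by
        intro c a
        ext t
        fin_cases t <;> simp }
  have hker := LinearMap.ker_ne_bot_of_finrank_lt (f := φ) (by simp; omega)
  obtain ⟨⟨g, hgS⟩, hg, hg0⟩ := Submodule.exists_mem_ne_zero_of_ne_bot hker
  have hφ : φ ⟨g, hgS⟩ = 0 := hg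
  refine ⟨g, fun h => hg0 (Subtype.ext h), hA g hgS, ?_, ?_, ?_, ?_⟩
  · exact congrFun hφ 0
  · exact congrFun hφ 1
  · exact congrFun hφ 2
  · exact congrFun hφ 3

lemma Cork6.mask_det {A : Matrix (Fin n) (Fin n) K} (h : Cork6 A) (i k j l : Fin n) :
    (mask i k (mask j l A)).det = 0 := by
  obtain ⟨g, hg0, hA, hi, hk, hj, hl⟩ := h.exists_four i k j l
  rw [← Matrix.exists_mulVec_eq_zero_iff]
  refine ⟨g, hg0, ?_⟩
  ext v
  have h1 := congrFun hA v
  simp only [Matrix.mulVec, dotProduct, Pi.zero_apply] at h1 ⊢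
  by_cases hv : v = i ∨ v = k ∨ v = j ∨ v = l
  · refine Finset.sum_eq_zero fun w _ => ?_
    by_cases hw : w = i ∨ w = k ∨ w = j ∨ w = l
    · rcases hw with rfl | rfl | rfl | rfl
      · rw [hi, mul_zero]
      · rw [hk, mul_zero]
      · rw [hj, mul_zero]
      · rw [hl, mul_zero]
    · push Not at hw
      have : mask i k (mask j l A) v w = 0 := by
        unfold mask
        by_cases h2 : v = i ∨ v = k
        · rw [if_neg]
          simp [h2, hw.1, hw.2.1]
        · have h3 : v = j ∨ v = l := by tauto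
          simp [h2, h3, hw.1, hw.2.1, hw.2.2.1, hw.2.2.2]
      rw [this, zero_mul]
  · push Not at hv
    rw [← h1]
    refine Finset.sum_congr rfl fun w _ => ?_
    by_cases hw : w = i ∨ w = k ∨ w = j ∨ w = l
    · rcases hw with rfl | rfl | rfl | rfl
      · rw [hi, mul_zero, mul_zero]
      · rw [hk, mul_zero, mul_zero]
      · rw [hj, mul_zero, mul_zero]
      · rw [hl, mul_zero, mul_zero]
    · push Not at hw
      congr 1
      unfold mask
      simp [hv.1, hv.2.1, hv.2.2.1, hv.2.2.2, hw.1, hw.2.1, hw.2.2.1, hw.2.2.2]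

lemma Cork6.mask_det' {A : Matrix (Fin n) (Fin n) K} (h : Cork6 A) (i k : Fin n) :
    (mask i k A).det = 0 := by
  have h1 := h.mask_det i k i k
  have : mask i k (mask i k A) = mask i k A := by
    ext u v
    unfold mask
    split_ifs <;> rfl
  rwa [this] at h1

lemma Cork6.det {A : Matrix (Fin n) (Fin n) K} (h : Cork6 A) : A.det = 0 := by
  obtain ⟨S, hS, hA⟩ := h
  have hne : S ≠ ⊥ := by
    rintro rfl
    rw [finrank_bot] at hS
    omega
  obtain ⟨g, hg, hg0⟩ := Submodule.exists_mem_ne_zero_of_ne_bot hne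
  rw [← Matrix.exists_mulVec_eq_zero_iff]
  exact ⟨g, hg0, hA g hg⟩

lemma T_add {R : Type*} [CommRing R] (f g : Equiv.Perm (Fin n) → R)
    (A : Matrix (Fin n) (Fin n) R) : T (fun m => f m + g m) A = T f A + T g A := by
  unfold T
  rw [← Finset.sum_add_distrib]
  exact Finset.sum_congr rfl fun m _ => by ring

lemma T_lin [CharP K 2] (φ : ZMod 2 →+* K) (A : Matrix (Fin n) (Fin n) K)
    (hs : ∀ u v, A u v = A v u) (h0 : ∀ v, A v v = 0) (x : Fin n → Fin n → ZMod 2) :
    T (fun m => φ (lin x m)) A =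
      ∑ i, ∑ k, if i < k then φ (x i k) * (mask i k A).det else 0 := by
  simp only [det_mask A hs h0, T]
  have e1 : ∀ i k : Fin n, (if i < k then φ (x i k) *
      ∑ m ∈ pms n, (if m i = k then (1 : K) else 0) * ∏ v, A v (m v) else 0) =
      ∑ m ∈ pms n, (if i < k then (if m i = k then φ (x i k) else 0) else 0) *
        ∏ v, A v (m v) := by
    intro i k
    split_ifs
    · rw [mul_sum]
      refine sum_congr rfl fun m _ => ?_
      split_ifs <;> simp
    · simp
  simp only [e1]
  have e3 : ∀ m : Equiv.Perm (Fin n), φ (lin x m) = ∑ i, ∑ k,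
      (if i < k then (if m i = k then φ (x i k) else 0) else 0) := by
    intro m
    simp only [lin, map_sum]
    refine sum_congr rfl fun i _ => ?_
    rw [sum_eq_single (m i)]
    · by_cases h : i < m i
      · simp [h]
      · simp [h]
    · intro k _ hk
      simp [Ne.symm hk]
    · simp
  simp only [e3, sum_mul]
  simp only [sum_comm (s := (univ : Finset (Fin n))) (t := pms n)]

/-- The weighted sum vanishes at every matrix of corank at least six. -/
theorem T_vanish [CharP K 2] (φ : ZMod 2 →+* K) {A : Matrix (Fin n) (Fin n) K}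
    (hs : ∀ u v, A u v = A v u) (h0 : ∀ v, A v v = 0) (h : Cork6 A)
    (x : Fin n → Fin n → ZMod 2) (d : ZMod 2) :
    T (fun m => φ (cr m + lin x m + d)) A = 0 := by
  have e : (fun m : Equiv.Perm (Fin n) => φ (cr m + lin x m + d)) =
      fun m => (φ (cr m) + φ (lin x m)) + φ d := by
    ext m
    rw [map_add, map_add]
  rw [e, T_add, T_add, ← detS_eq A hs h0 φ, T_lin φ A hs h0 x]
  have h1 : detS A = 0 := by
    unfold detS
    refine Finset.sum_eq_zero fun i _ => Finset.sum_eq_zero fun j _ =>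
      Finset.sum_eq_zero fun k _ => Finset.sum_eq_zero fun l _ => ?_
    rw [h.mask_det]
    simp
  have h2 : (∑ i, ∑ k, if i < k then φ (x i k) * (mask i k A).det else 0) = 0 := by
    refine Finset.sum_eq_zero fun i _ => Finset.sum_eq_zero fun j _ => ?_
    rw [h.mask_det']
    simp
  have h3 : T (fun _ => φ d) A = 0 := by
    have : T (fun _ => φ d) A = φ d * A.det := by
      rw [det_eq_sum_pms A hs h0, T, Finset.mul_sum]
    rw [this, h.det, mul_zero]
  rw [h1, h2, h3]
  simp

end vanish

end Pool.Agent.Lib.MP_0c183c_h75B
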