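import Mathlib

/-! # First order terms of bordered minors -/

set_option autoImplicit false

namespace Pool.Agent.Lib.MP_0c183c_h75B

open Matrix Finset

variable {V : Type*} {K : Type*}

/-- `P_v P_w^T + P_w P_v^T` -/
def Ed [CommRing K] (P : Matrix V V K) (v w : V) : Matrix V V K :=
  Matrix.of fun a b => P a v * P w b + P a w * P v b

/-- The matrix `P + X (P_v P_w^T + P_w P_v^T)`. -/
noncomputable def pX [CommRing K] (P : Matrix V V K) (v w : V) : Matrix V V (Polynomial K) :=
  P.map Polynomial.C + (Polynomial.X : Polynomial K) • (Ed P v w).map Polynomial.C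

/-- The vanishing minors of size at most `c` vanish along every edge. -/
def Stuck [CommRing K] (G : SimpleGraph V) (P : Matrix V V K) (c : ℕ) : Prop :=
  ∀ k ≤ c, ∀ x x' : Fin k → V, (P.submatrix x x').det = 0 → ∀ v w, G.Adj v w →
    ((pX P v w).submatrix x x').det = 0

/-- The Schur complement. -/
noncomputable def sch [Field K] {r : ℕ} (P : Matrix V V K) (x x' : Fin r → V) (a b : V) : K :=
  P a b - ∑ i, ∑ j, P a (x' i) * (P.submatrix x x')⁻¹ i j * P (x j) b

/-- The matrix `P + ε (P_v P_w^T + P_w P_v^T)`. -/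
noncomputable def pE [CommRing K] (P : Matrix V V K) (v w : V) : Matrix V V (DualNumber K) :=
  Matrix.of fun a b => TrivSqZeroExt.inl (P a b) + TrivSqZeroExt.inr (Ed P v w a b)

lemma det_pE [CommRing K] {ι : Type*} [Fintype ι] [DecidableEq ι] (P : Matrix V V K) (v w : V)
    (x x' : ι → V) (h : ((pX P v w).submatrix x x').det = 0) :
    ((pE P v w).submatrix x x').det = 0 := by
  have h1 := congrArg (Polynomial.aeval (R := K) (DualNumber.eps : DualNumber K)) h
  rw [map_zero, AlgHom.map_det] at h1
  convert h1 using 2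
  ext a b
  · simp [pE, pX, AlgHom.mapMatrix_apply, Matrix.map_apply, Ed, TrivSqZeroExt.algebraMap_eq_inl]
  · simp [pE, pX, AlgHom.mapMatrix_apply, Matrix.map_apply, Ed, TrivSqZeroExt.algebraMap_eq_inl]

/-- The key identity: if the bordered minor and its first order term vanish, then so does the
product expression. -/
lemma kappa [Field K] {r : ℕ} (P : Matrix V V K) (x x' : Fin r → V)
    (hN : (P.submatrix x x').det ≠ 0) (u u' v w : V)
    (hdet : ((pE P v w).submatrix (Sum.elim (fun _ : Unit => u) x)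
      (Sum.elim (fun _ : Unit => u') x')).det = 0) :
    sch P x x' u v * sch P x x' w u' + sch P x x' u w * sch P x x' v u' = 0 := by
  set N := P.submatrix x x' with hNdef
  set D : Matrix (Fin r) (Fin r) (DualNumber K) := (pE P v w).submatrix x x' with hD
  have hDfst : ∀ i j, (D i j).fst = N i j := fun i j => by simp [hD, hNdef, pE]
  have hDsnd : ∀ i j, (D i j).snd = Ed P v w (x i) (x' j) := fun i j => by simp [hD, pE]
  have hDdet : IsUnit D.det := by
    rw [TrivSqZeroExt.isUnit_iff_isUnit_fst]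
    have h1 : D.det.fst = N.det := by
      have := AlgHom.map_det (TrivSqZeroExt.fstHom K K K) D
      rw [TrivSqZeroExt.fstHom_apply] at this
      rw [this]
      congr 1
      ext i j
      simp [AlgHom.mapMatrix_apply, hDfst]
    rw [h1]
    exact isUnit_iff_ne_zero.mpr hN
  let _ : Invertible D := D.invertibleOfIsUnitDet hDdet
  have hNu : IsUnit N.det := isUnit_iff_ne_zero.mpr hN
  set A : Matrix Unit Unit (DualNumber K) := Matrix.of fun _ _ => pE P v w u u' with hA
  set B : Matrix Unit (Fin r) (DualNumber K) := Matrix.of fun _ j => pE P v w u (x' j) with hB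
  set C : Matrix (Fin r) Unit (DualNumber K) := Matrix.of fun i _ => pE P v w (x i) u' with hC
  have hM : (pE P v w).submatrix (Sum.elim (fun _ : Unit => u) x)
      (Sum.elim (fun _ : Unit => u') x') = Matrix.fromBlocks A B C D := by
    ext (i | i) (j | j) <;> rfl
  rw [hM, Matrix.det_fromBlocks₂₂, hDdet.mul_right_eq_zero, Matrix.det_unique] at hdet
  set g : Fin r → K := fun j => ∑ i, P u (x' i) * N⁻¹ i j with hg
  set g' : Fin r → K := fun i => ∑ j, N⁻¹ i j * P (x j) u' with hg'
  set G : Matrix Unit (Fin r) (DualNumber K) := Matrix.of fun _ j => TrivSqZeroExt.inl (g j) with hG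
  set G' : Matrix (Fin r) Unit (DualNumber K) := Matrix.of fun i _ => TrivSqZeroExt.inl (g' i)
    with hG'
  have hid : A - B * ⅟D * C = (A - G * C - B * G' + G * D * G') -
      (B - G * D) * ⅟D * (C - D * G') := by
    have e1 : (B - G * D) * ⅟D * (C - D * G') =
        B * ⅟D * C - B * G' - G * C + G * D * G' := by
      rw [Matrix.sub_mul, Matrix.mul_assoc G D, mul_invOf_self, Matrix.mul_one, Matrix.sub_mul,
        Matrix.mul_sub, Matrix.mul_sub, ← Matrix.mul_assoc (B * ⅟D) D G', Matrix.mul_assoc B (⅟D) D,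
        invOf_mul_self, Matrix.mul_one, ← Matrix.mul_assoc G D G']
      abel
    rw [e1]
    abel
  have gN : ∀ j, ∑ i, g i * N i j = P u (x' j) := by
    intro j
    have h1 : N⁻¹ * N = 1 := Matrix.nonsing_inv_mul N hNu
    simp only [hg, Finset.sum_mul]
    rw [Finset.sum_comm]
    have h2 : ∀ i, ∑ k, P u (x' i) * N⁻¹ i k * N k j = P u (x' i) * (1 : Matrix _ _ K) i j := by
      intro i
      rw [← h1, Matrix.mul_apply, Finset.mul_sum]
      exact Finset.sum_congr rfl fun k _ => by ring
    simp only [h2, Matrix.one_apply, mul_ite, mul_one, mul_zero, Finset.sum_ite_eq',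
      Finset.mem_univ, if_true]
  have gN' : ∀ i, ∑ j, N i j * g' j = P (x i) u' := by
    intro i
    have h1 : N * N⁻¹ = 1 := Matrix.mul_nonsing_inv N hNu
    simp only [hg', Finset.mul_sum]
    rw [Finset.sum_comm]
    have h2 : ∀ j, ∑ k, N i k * (N⁻¹ k j * P (x j) u') = (1 : Matrix _ _ K) i j * P (x j) u' := by
      intro j
      rw [← h1, Matrix.mul_apply, Finset.sum_mul]
      exact Finset.sum_congr rfl fun k _ => by ring
    simp only [h2, Matrix.one_apply, ite_mul, one_mul, zero_mul, Finset.sum_ite_eq,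
      Finset.mem_univ, if_true]
  have hBf : ∀ j, ((B - G * D) () j).fst = 0 := by
    intro j
    simp only [Matrix.sub_apply, TrivSqZeroExt.fst_sub, Matrix.mul_apply]
    rw [TrivSqZeroExt.fst_sum]
    simp only [TrivSqZeroExt.fst_mul, hDfst, hG, Matrix.of_apply, TrivSqZeroExt.fst_inl, gN]
    simp [hB, pE]
  have hCf : ∀ i, ((C - D * G') i ()).fst = 0 := by
    intro i
    simp only [Matrix.sub_apply, TrivSqZeroExt.fst_sub, Matrix.mul_apply]
    rw [TrivSqZeroExt.fst_sum]
    simp only [TrivSqZeroExt.fst_mul, hDfst, hG', Matrix.of_apply, TrivSqZeroExt.fst_inl, gN']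
    simp [hC, pE]
  have hz : (((B - G * D) * ⅟D * (C - D * G')) () ()).snd = 0 := by
    rw [Matrix.mul_apply, TrivSqZeroExt.snd_sum]
    refine Finset.sum_eq_zero fun j _ => ?_
    rw [TrivSqZeroExt.snd_mul, hCf]
    have : (((B - G * D) * ⅟D) () j).fst = 0 := by
      rw [Matrix.mul_apply, TrivSqZeroExt.fst_sum]
      exact Finset.sum_eq_zero fun i _ => by rw [TrivSqZeroExt.fst_mul, hBf, zero_mul]
    rw [this]
    simp
  have h0 : ((A - B * ⅟D * C) () ()).snd = 0 := by
    have : (A - B * ⅟D * C) () () = 0 := hdet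
    rw [this]
    simp
  rw [hid, Matrix.sub_apply, TrivSqZeroExt.snd_sub, hz, sub_zero] at h0
  have hsch : ∀ b, sch P x x' u b = P u b - ∑ j, g j * P (x j) b := by
    intro b
    simp only [sch, hg, Finset.sum_mul]
    rw [Finset.sum_comm]
  have hsch' : ∀ a, sch P x x' a u' = P a u' - ∑ i, P a (x' i) * g' i := by
    intro a
    simp only [sch, hg', Finset.mul_sum, mul_assoc, ← hNdef]
  have e2 : ((A - G * C - B * G' + G * D * G') () ()).snd = Ed P v w u u' -
      ∑ j, g j * Ed P v w (x j) u' - ∑ i, Ed P v w u (x' i) * g' i +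
      ∑ i, (∑ j, g j * Ed P v w (x j) (x' i)) * g' i := by
    simp only [Matrix.add_apply, Matrix.sub_apply, Matrix.mul_apply, TrivSqZeroExt.snd_add,
      TrivSqZeroExt.snd_sub, TrivSqZeroExt.snd_sum, TrivSqZeroExt.snd_mul, hG, hG', hB, hC, hA,
      Matrix.of_apply, TrivSqZeroExt.fst_inl, TrivSqZeroExt.snd_inl, hDsnd, smul_zero, zero_add,
      add_zero, TrivSqZeroExt.fst_sum, TrivSqZeroExt.fst_mul, pE, TrivSqZeroExt.snd_inr,
      smul_eq_mul, MulOpposite.smul_eq_mul_unop, MulOpposite.unop_op, mul_zero]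
  rw [e2] at h0
  rw [hsch, hsch, hsch', hsch', ← h0]
  simp only [Ed, Matrix.of_apply]
  have s1 : ∀ (p q : V), ∑ j, g j * (P (x j) p * P q u' + P (x j) q * P p u') =
      (∑ j, g j * P (x j) p) * P q u' + (∑ j, g j * P (x j) q) * P p u' := by
    intro p q
    rw [Finset.sum_mul, Finset.sum_mul, ← Finset.sum_add_distrib]
    exact Finset.sum_congr rfl fun j _ => by ring
  have s2 : ∑ i, (P u v * P w (x' i) + P u w * P v (x' i)) * g' i =
      P u v * (∑ i, P w (x' i) * g' i) + P u w * (∑ i, P v (x' i) * g' i) := by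
    rw [Finset.mul_sum, Finset.mul_sum, ← Finset.sum_add_distrib]
    exact Finset.sum_congr rfl fun j _ => by ring
  have s3 : ∑ i, (∑ j, g j * (P (x j) v * P w (x' i) + P (x j) w * P v (x' i))) * g' i =
      (∑ j, g j * P (x j) v) * (∑ i, P w (x' i) * g' i) +
      (∑ j, g j * P (x j) w) * (∑ i, P v (x' i) * g' i) := by
    have : ∀ i, ∑ j, g j * (P (x j) v * P w (x' i) + P (x j) w * P v (x' i)) =
        (∑ j, g j * P (x j) v) * P w (x' i) + (∑ j, g j * P (x j) w) * P v (x' i) := by
      intro i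
      rw [Finset.sum_mul, Finset.sum_mul, ← Finset.sum_add_distrib]
      exact Finset.sum_congr rfl fun j _ => by ring
    simp only [this]
    rw [Finset.mul_sum, Finset.mul_sum, ← Finset.sum_add_distrib]
    exact Finset.sum_congr rfl fun j _ => by ring
  rw [s1, s2, s3]
  ring

end Pool.Agent.Lib.MP_0c183c_h75B
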