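import Pool.Agent.Lib.MP_0c183c_h75B.Absorb

/-! # The finite level data -/

set_option autoImplicit false

namespace Pool.Agent.Lib.MP_0c183c_h75B

open Pool.Agent.Lib.MP_0c183c_co Pool.Agent.Lib.MP_0c183c_co_P9W Matrix Finset

section

variable {n m : ℕ} {K Ω : Type} [Field K] [Field Ω] [Algebra K Ω]

lemma AT_alt {G : SimpleGraph (Fin n)} {A : Matrix (Fin n) (Fin n) K} (hA : IsAltOn G A)
    {e : Fin m × Bool → Fin n} (he : Function.Injective e)
    (hadj : ∀ i, G.Adj (e (i, false)) (e (i, true))) (τ : Fin m → Ω) (T : Finset (Fin m)) :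
    IsAltOn G (AT e τ A T) := by
  have hA' : IsAltOn G (A.map (algebraMap K Ω)) := by
    refine ⟨fun u v => ?_, fun v => ?_, fun u v huv => ?_⟩
    · simp only [Matrix.map_apply, hA.symm u v]
    · simp only [Matrix.map_apply, hA.diag v, map_zero]
    · apply hA.supp
      intro h0
      apply huv
      simp only [Matrix.map_apply, h0, map_zero]
  exact hA'.addS he hadj _ _

/-- **Level data from a function of exact order `m`.** -/
theorem level_of_failure [CharP K 2] [Algebra (ZMod 2) Ω] {c : ℕ} {τ : Fin m → Ω}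
    (hτ : AlgebraicIndependent K τ) {G : SimpleGraph (Fin n)} {A : Matrix (Fin n) (Fin n) K}
    (hA : IsAltOn G A) (hdet : A.det ≠ 0) (hgen : CGen G A c)
    {e : Fin m × Bool → Fin n} (he : Function.Injective e)
    (hadj : ∀ i, G.Adj (e (i, false)) (e (i, true))) (φ : ZMod 2 →+* K)
    (x : Fin n → Fin n → ZMod 2) (d : ZMod 2)
    (h0 : ∀ S : Finset (Fin m), S ≠ univ →
      T (fun π => φ (cr π + lin x π + d)) (isoS e S A) = 0)
    (h1 : T (fun π => φ (cr π + lin x π + d)) (isoS e univ A) ≠ 0) :
    Nonempty (Level Ω c m) := by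
  classical
  have hchar : CharP Ω 2 := charP_of_injective_algebraMap (algebraMap K Ω).injective 2
  have hAT : ∀ T, IsAltOn G (AT e τ A T) := fun T => AT_alt hA he hadj τ T
  have hATP : ∀ T, AT e τ A T * (AT e τ A T)⁻¹ = 1 := fun T =>
    Matrix.mul_nonsing_inv _ (isUnit_iff_ne_zero.mpr (AT_det hτ hdet T))
  have hne : ∀ i : Fin m, e (i, false) ≠ e (i, true) := fun i h => by
    have := he h
    simp at this
  have hlift : ∀ S : Finset (Fin m),
      T (fun π => (algebraMap K Ω) (φ (cr π + lin x π + d))) (isoS e S (A.map (algebraMap K Ω))) =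
        algebraMap K Ω (T (fun π => φ (cr π + lin x π + d)) (isoS e S A)) := by
    intro S
    rw [T_map, isoS_map]
  have hsA : ∀ u v, (A.map (algebraMap K Ω)) u v = (A.map (algebraMap K Ω)) v u := by
    intro u v
    simp only [Matrix.map_apply, hA.symm u v]
  have hdA : ∀ v, (A.map (algebraMap K Ω)) v v = 0 := by
    intro v
    simp only [Matrix.map_apply, hA.diag v, map_zero]
  have hτ0 : ∀ i, τ i ≠ 0 := fun i h => by
    have h2 : (MvPolynomial.X i : MvPolynomial (Fin m) K) = 0 := by
      apply hτ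
      rw [map_zero, MvPolynomial.aeval_X, h]
    exact MvPolynomial.X_ne_zero i h2
  refine ⟨⟨fun T x y => (AT e τ A T)⁻¹ (e x) (e y), ?_, ?_, ?_, ?_⟩⟩
  · intro T x y
    exact inv_symm (hAT T).symm (hATP T) _ _
  · intro T b hb
    have hp : (AT e τ A T)⁻¹ (e (b, false)) (e (b, true)) ∈ FT K τ T :=
      inv_mem (fun u v => AT_mem T u v) _ _
    obtain ⟨hne1, htr⟩ := transc_mobius (tau_transc hτ hb) hp
    refine ⟨τ b / (1 + τ b * (AT e τ A T)⁻¹ (e (b, false)) (e (b, true))), ?_, ?_⟩
    · refine generic_of_transc ?_ htr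
      rintro z ⟨x, y, _, _, rfl⟩
      exact inv_mem (fun u v => AT_mem T u v) _ _
    · intro x y _ _
      have h2 : AT e τ A (T.erase b) =
          addE (e (b, false)) (e (b, true)) (τ b) (AT e τ A T) := by
        unfold AT
        rw [addE_addS he (by simpa using hb), Finset.compl_erase]
      rw [h2, absorb_inv (hAT T).symm (hAT T).diag (hATP T) (hne b) (τ b) hne1]
      rfl
  · intro X Y _ hX hY T T' _ _
    have hmin : ∀ T k, k ≤ c → ∀ (a : Fin k → X) (b : Fin k → Y),
        ((sub (fun x y => (AT e τ A T)⁻¹ (e x) (e y)) X Y).submatrix a b).det = 0 ↔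
        ((A⁻¹).submatrix (fun i => e (a i)) (fun i => e (b i))).det = 0 := by
      intro T k hk a b
      rw [← AT_minor hτ hA hdet hgen he hadj T hk]
      rfl
    apply le_antisymm
    · refine rank_le_of_minors (c := c) _ _ (by simpa using hX) fun k hk a b h => ?_
      rw [hmin T k hk, ← hmin T' k hk]
      exact h
    · refine rank_le_of_minors (c := c) _ _ (by simpa using hX) fun k hk a b h => ?_
      rw [hmin T' k hk, ← hmin T k hk]
      exact h
  · intro T₀ θ
    by_contra hcon
    push Not at hcon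
    set P := (AT e τ A T₀)⁻¹ with hP
    set Z : Finset (Fin m) := T₀.filter fun i => θ i + P (e (i, false)) (e (i, true)) = 0 with hZ
    have hZ' : ∀ i, i ∈ Z ↔ i ∈ T₀ ∧ θ i + P (e (i, false)) (e (i, true)) = 0 := by
      intro i
      rw [hZ, Finset.mem_filter]
    have hc := cork_transfer he (hAT T₀).symm (hAT T₀).diag (hATP T₀) T₀ θ hcon Z hZ'
    set σ : Fin m → Ω := fun i => if i ∈ T₀ then (θ i + P (e (i, false)) (e (i, true)))⁻¹ else τ i
      with hσ
    have hdis : Disjoint (T₀ \ Z) T₀ᶜ := by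
      rw [Finset.disjoint_left]
      intro i hi hi'
      exact (Finset.mem_compl.mp hi') (Finset.mem_sdiff.mp hi).1
    have hB : addS e (T₀ \ Z) (fun i => (θ i + P (e (i, false)) (e (i, true)))⁻¹) (AT e τ A T₀) =
        addS e ((T₀ \ Z) ∪ T₀ᶜ) σ (A.map (algebraMap K Ω)) := by
      unfold AT
      refine addS_union hdis _ _ σ ?_ ?_ _
      · intro i hi
        rw [hσ]
        simp only
        rw [if_pos (Finset.mem_sdiff.mp hi).1]
      · intro i hi
        rw [hσ]
        simp only
        rw [if_neg (Finset.mem_compl.mp hi)]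
    rw [hB] at hc
    have hWZ : Disjoint ((T₀ \ Z) ∪ T₀ᶜ) Z := by
      rw [Finset.disjoint_union_left]
      refine ⟨Finset.sdiff_disjoint, ?_⟩
      rw [Finset.disjoint_left]
      intro i hi hi'
      exact (Finset.mem_compl.mp hi) ((hZ' i).mp hi').1
    have hun : ((T₀ \ Z) ∪ T₀ᶜ) ∪ Z = univ := by
      ext i
      simp only [Finset.mem_union, Finset.mem_sdiff, Finset.mem_compl, Finset.mem_univ, iff_true]
      tauto
    have hex := expand he (fun π => (algebraMap K Ω) (φ (cr π + lin x π + d))) hsA σ (by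
      intro S hS
      rw [hlift, h0 S hS, map_zero]) _ Z hWZ
    rw [if_pos hun] at hex
    have hval : T (fun π => (algebraMap K Ω) (φ (cr π + lin x π + d)))
        (isoS e Z (addS e ((T₀ \ Z) ∪ T₀ᶜ) σ (A.map (algebraMap K Ω)))) = 0 := by
      have := T_vanish ((algebraMap K Ω).comp φ) (isoS_symm (e := e) (Z := Z) (addS_symm hsA))
        (isoS_diag he (addS_diag he hdA)) hc x d
      exact this
    rw [hval] at hex
    have h2 : (∏ i ∈ (T₀ \ Z) ∪ T₀ᶜ, σ i ^ 2) ≠ 0 := by
      rw [Finset.prod_ne_zero_iff]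
      intro i hi
      apply pow_ne_zero
      rw [hσ]
      simp only
      split_ifs with hiT
      · apply inv_ne_zero
        intro h
        have hiZ : i ∈ Z := (hZ' i).mpr ⟨hiT, h⟩
        exact (Finset.disjoint_left.mp hWZ) hi hiZ
      · exact hτ0 i
    have h3 : T (fun π => (algebraMap K Ω) (φ (cr π + lin x π + d)))
        (isoS e univ (A.map (algebraMap K Ω))) ≠ 0 := by
      rw [hlift]
      intro h
      exact h1 ((map_eq_zero_iff _ (algebraMap K Ω).injective).mp h)
    exact (mul_ne_zero h2 h3) hex.symm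

end

section

variable {n m : ℕ} {R : Type*} [CommRing R]

lemma isoS_comp {k : ℕ} (e : Fin m × Bool → Fin n) (ι : Fin k ↪ Fin m) (Z : Finset (Fin k))
    (A : Matrix (Fin n) (Fin n) R) :
    isoS (fun p : Fin k × Bool => e (ι p.1, p.2)) Z A = isoS e (Z.map ι) A := by
  ext u v
  unfold isoS
  refine if_congr ?_ rfl (if_congr ?_ rfl rfl)
  · constructor
    · rintro ⟨i, hi, h⟩
      exact ⟨ι i, Finset.mem_map_of_mem ι hi, h⟩
    · rintro ⟨j, hj, h⟩
      obtain ⟨i, hi, rfl⟩ := Finset.mem_map.mp hj
      exact ⟨i, hi, h⟩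
  · constructor
    · rintro ⟨i, hi, h⟩
      exact ⟨ι i, Finset.mem_map_of_mem ι hi, h⟩
    · rintro ⟨j, hj, h⟩
      obtain ⟨i, hi, rfl⟩ := Finset.mem_map.mp hj
      exact ⟨i, hi, h⟩

lemma isoL_ofFn : ∀ (m : ℕ) (e : Fin m × Bool → Fin n), Function.Injective e →
    ∀ A : Matrix (Fin n) (Fin n) R,
    isoL (List.ofFn fun i : Fin m => (e (i, false), e (i, true))) A = isoS e univ A := by
  intro m
  induction m with
  | zero =>
    intro e _ A
    rw [List.ofFn_zero]
    have : (univ : Finset (Fin 0)) = ∅ := rfl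
    rw [this, isoS_empty]
    rfl
  | succ m ih =>
    intro e he A
    rw [List.ofFn_succ]
    have h1 : isoL (List.ofFn fun i : Fin m => (e (i.succ, false), e (i.succ, true))) A =
        isoS e (univ.map (Fin.succEmb m)) A := by
      rw [← isoS_comp e (Fin.succEmb m) univ A]
      apply ih (fun p => e (p.1.succ, p.2))
      intro p q hpq
      have := he hpq
      rw [Prod.mk.injEq] at this
      exact Prod.ext (Fin.succ_injective _ this.1) this.2
    have h2 : isoL ((e (0, false), e (0, true)) ::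
        List.ofFn fun i : Fin m => (e (i.succ, false), e (i.succ, true))) A =
        iso (e (0, false)) (e (0, true))
          (isoL (List.ofFn fun i : Fin m => (e (i.succ, false), e (i.succ, true))) A) := rfl
    rw [h2, h1, iso_isoS he (by
      intro h
      obtain ⟨i, _, hi⟩ := Finset.mem_map.mp h
      exact Fin.succ_ne_zero i hi)]
    congr 1
    ext i
    simp only [Finset.mem_insert, Finset.mem_map, Finset.mem_univ, true_and, iff_true]
    rcases Fin.eq_zero_or_eq_succ i with h | ⟨j, h⟩
    · exact Or.inl h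
    · exact Or.inr ⟨j, h.symm⟩

/-- At a perfect matching the isolated matrix is the permutation matrix. -/
lemma T_isoS_perfect {e : Fin m × Bool → Fin n} (hsurj : Function.Surjective e)
    (f : Equiv.Perm (Fin n) → R) {π : Equiv.Perm (Fin n)} (hπ : IsPM π)
    (hpair : ∀ i a, π (e (i, a)) = e (i, !a)) (A : Matrix (Fin n) (Fin n) R) :
    T f (isoS e univ A) = f π := by
  have h1 : ∀ u v, isoS e univ A u v = if π u = v then 1 else 0 := by
    intro u v
    obtain ⟨⟨i, a⟩, rfl⟩ := hsurj u
    unfold isoS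
    by_cases h : π (e (i, a)) = v
    · rw [if_pos h, if_pos]
      refine ⟨i, mem_univ i, ?_⟩
      rw [← h, hpair]
      cases a
      · exact Or.inl ⟨rfl, rfl⟩
      · exact Or.inr ⟨rfl, rfl⟩
    · rw [if_neg h]
      rw [if_neg, if_pos]
      · exact ⟨i, mem_univ i, a, Or.inl rfl⟩
      · rintro ⟨j, _, hj⟩
        apply h
        obtain ⟨b, hb1, hb2⟩ := hj.left
        rw [hb1, hb2, hpair]
  unfold T
  rw [Finset.sum_eq_single π]
  · have : ∏ v, isoS e univ A v (π v) = 1 := by
      refine Finset.prod_eq_one fun v _ => ?_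
      rw [h1, if_pos rfl]
    rw [this, mul_one]
  · intro π' _ hne
    obtain ⟨v, hv⟩ : ∃ v, π v ≠ π' v := by
      by_contra hcon
      push Not at hcon
      exact hne (Equiv.ext fun v => (hcon v).symm)
    rw [Finset.prod_eq_zero (mem_univ v), mul_zero]
    rw [h1, if_neg hv]
  · intro h
    exact absurd (mem_pms.mpr hπ) h

end

end Pool.Agent.Lib.MP_0c183c_h75B
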