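import Pool.Agent.Lib.MP_0c183c_h75B.Cork
import Pool.Agent.Lib.MP_0c183c_h75B.Generic

/-! # Minors of the inverse, ranks, and generic parameters -/

set_option autoImplicit false

namespace Pool.Agent.Lib.MP_0c183c_h75B

open Pool.Agent.Lib.MP_0c183c_co Pool.Agent.Lib.MP_0c183c_co_P9W Matrix Finset

section rank

variable {α β F : Type*} [Fintype α] [Fintype β] [Field F]

/-- A nonsingular square submatrix of the size of the rank. -/
lemma exists_minor (M : Matrix α β F) :
    ∃ (a : Fin M.rank → α) (b : Fin M.rank → β), (M.submatrix a b).det ≠ 0 := by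
  classical
  -- choose independent rows
  have h1 : M.rank = Module.finrank F (Submodule.span F (Set.range M.row)) :=
    Matrix.rank_eq_finrank_span_row M
  have h2 : ∃ a : Fin M.rank → α, LinearIndependent F (fun i => M.row (a i)) := by
    obtain ⟨κ, a, ha, hspan, hli⟩ := exists_linearIndependent' F M.row
    have hfin : Fintype κ := Fintype.ofInjective a ha
    have hcard : Fintype.card κ = M.rank := by
      rw [h1, ← hspan]
      exact (finrank_span_eq_card hli).symm
    let eq : Fin M.rank ≃ κ := (Fintype.equivFinOfCardEq hcard).symm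
    exact ⟨fun i => a (eq i), hli.comp eq eq.injective⟩
  obtain ⟨a, ha⟩ := h2
  set N : Matrix (Fin M.rank) β F := M.submatrix a id with hN
  have hNr : N.rank = M.rank := by
    have := LinearIndependent.rank_matrix (M := N) ha
    rw [this, Fintype.card_fin]
  have h3 : ∃ b : Fin M.rank → β, LinearIndependent F (fun j => N.col (b j)) := by
    obtain ⟨κ, b, hb, hspan, hli⟩ := exists_linearIndependent' F N.col
    have hfin : Fintype κ := Fintype.ofInjective b hb
    have hcard : Fintype.card κ = M.rank := by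
      rw [← hNr, Matrix.rank_eq_finrank_span_cols, ← hspan]
      exact (finrank_span_eq_card hli).symm
    let eq : Fin M.rank ≃ κ := (Fintype.equivFinOfCardEq hcard).symm
    exact ⟨fun i => b (eq i), hli.comp eq eq.injective⟩
  obtain ⟨b, hb⟩ := h3
  refine ⟨a, b, ?_⟩
  have h4 : LinearIndependent F (M.submatrix a b).col := hb
  have h5 : IsUnit (M.submatrix a b) := Matrix.linearIndependent_cols_iff_isUnit.mp h4
  exact ((Matrix.isUnit_iff_isUnit_det _).mp h5).ne_zero

lemma rank_le_of_minors {c : ℕ} (M M' : Matrix α β F) (hα : Fintype.card α ≤ c)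
    (h : ∀ k ≤ c, ∀ (a : Fin k → α) (b : Fin k → β), (M'.submatrix a b).det = 0 →
      (M.submatrix a b).det = 0) : M.rank ≤ M'.rank := by
  obtain ⟨a, b, hab⟩ := exists_minor M
  have hr : M.rank ≤ c := (Matrix.rank_le_card_height M).trans hα
  have h1 : (M'.submatrix a b).det ≠ 0 := fun h0 => hab (h _ hr a b h0)
  have h2 : (M'.submatrix a b).rank = M.rank := by
    rw [Matrix.rank_of_det_ne_zero h1, Fintype.card_fin]
  rw [← h2]
  exact Matrix.rank_submatrix_le M' a b

end rank

section minors

variable {V : Type*} [Fintype V] [DecidableEq V]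

/-- Vanishing of a minor of the inverse, in terms of the adjugate over a ring. -/
lemma minor_iff {R F : Type*} [CommRing R] [Field F] (φ : R →+* F) (M : Matrix V V R)
    (hd : (M.map φ).det ≠ 0) {k : ℕ} (a b : Fin k → V) :
    (((M.map φ)⁻¹).submatrix a b).det = 0 ↔ φ ((M.adjugate.submatrix a b).det) = 0 := by
  have h1 : ((M.map φ)⁻¹).submatrix a b =
      ((M.map φ).det)⁻¹ • (φ.mapMatrix (M.adjugate.submatrix a b)) := by
    rw [Matrix.inv_def, Ring.inverse_eq_inv']
    ext i j
    simp only [Matrix.submatrix_apply, Matrix.smul_apply, RingHom.mapMatrix_apply,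
      Matrix.map_apply]
    congr 1
    have := congrFun (congrFun (RingHom.map_adjugate φ M) (a i)) (b j)
    rw [RingHom.mapMatrix_apply, RingHom.mapMatrix_apply, Matrix.map_apply] at this
    exact this.symm
  rw [h1, Matrix.det_smul, ← RingHom.map_det, mul_eq_zero]
  constructor
  · rintro (h | h)
    · exact absurd h (pow_ne_zero _ (inv_ne_zero hd))
    · exact h
  · exact fun h => Or.inr h

end minors

section

variable {n m : ℕ} {e : Fin m × Bool → Fin n}

lemma addS_map {R S : Type*} [CommRing R] [CommRing S] (φ : R →+* S) (W : Finset (Fin m))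
    (σ : Fin m → R) (A : Matrix (Fin n) (Fin n) R) :
    (addS e W σ A).map φ = addS e W (fun i => φ (σ i)) (A.map φ) := by
  ext u v
  simp only [Matrix.map_apply, addS, map_add, map_sum]
  congr 1
  refine Finset.sum_congr rfl fun i _ => ?_
  split_ifs <;> simp

lemma isoS_map {R S : Type*} [CommRing R] [CommRing S] (φ : R →+* S) (Z : Finset (Fin m))
    (A : Matrix (Fin n) (Fin n) R) :
    (isoS e Z A).map φ = isoS e Z (A.map φ) := by
  ext u v
  simp only [Matrix.map_apply, isoS]
  split_ifs <;> simp

lemma T_map {R S : Type*} [CommRing R] [CommRing S] (φ : R →+* S) (f : Equiv.Perm (Fin n) → R)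
    (A : Matrix (Fin n) (Fin n) R) : φ (T f A) = T (fun π => φ (f π)) (A.map φ) := by
  unfold T
  rw [map_sum]
  refine Finset.sum_congr rfl fun π _ => ?_
  rw [map_mul, map_prod]
  rfl

lemma addS_zero {R : Type*} [CommRing R] (W : Finset (Fin m)) (A : Matrix (Fin n) (Fin n) R) :
    addS e W 0 A = A := by
  ext u v
  simp [addS]

lemma addS_union {R : Type*} [CommRing R] {W W' : Finset (Fin m)} (hd : Disjoint W W')
    (σ σ' ρ : Fin m → R) (h : ∀ i ∈ W, ρ i = σ i) (h' : ∀ i ∈ W', ρ i = σ' i)
    (A : Matrix (Fin n) (Fin n) R) :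
    addS e W σ (addS e W' σ' A) = addS e (W ∪ W') ρ A := by
  ext u v
  simp only [addS]
  rw [Finset.sum_union hd, add_assoc]
  congr 1
  rw [add_comm]
  congr 1
  · exact Finset.sum_congr rfl fun i hi => by rw [h i hi]
  · exact Finset.sum_congr rfl fun i hi => by rw [h' i hi]

lemma IsAltOn.addS {R : Type*} [CommRing R] {G : SimpleGraph (Fin n)}
    {A : Matrix (Fin n) (Fin n) R} (hA : IsAltOn G A) (he : Function.Injective e)
    (hadj : ∀ i, G.Adj (e (i, false)) (e (i, true))) (W : Finset (Fin m)) (σ : Fin m → R) :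
    IsAltOn G (addS e W σ A) := by
  refine ⟨addS_symm hA.symm, addS_diag he hA.diag, ?_⟩
  intro u v huv
  by_contra hna
  apply huv
  unfold Pool.Agent.Lib.MP_0c183c_h75B.addS
  have h1 : A u v = 0 := by
    by_contra h
    exact hna (hA.supp u v h)
  rw [h1, zero_add]
  refine Finset.sum_eq_zero fun i _ => ?_
  rw [if_neg]
  rintro (⟨rfl, rfl⟩ | ⟨rfl, rfl⟩)
  · exact hna (hadj i)
  · exact hna (hadj i).symm

end

end Pool.Agent.Lib.MP_0c183c_h75B
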