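import Mathlib

/-! # Few quadratic forms on a space of larger dimension have a common nonzero zero -/

set_option autoImplicit false

namespace Pool.Agent.Lib.MP_0c183c_h75B

open MvPolynomial

section

variable {K : Type*} [Field K]

/-- Set the first `j` variables to zero. -/
noncomputable def kill (n j : ℕ) : MvPolynomial (Fin n) K →ₐ[K] MvPolynomial (Fin n) K :=
  aeval fun i : Fin n => if (i : ℕ) < j then 0 else X i

lemma kill_ker_lt {n j : ℕ} (hj : j < n) :
    RingHom.ker (kill (K := K) n j) < RingHom.ker (kill (K := K) n (j + 1)) := by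
  rw [SetLike.lt_iff_le_and_exists]
  constructor
  · intro f hf
    rw [RingHom.mem_ker] at hf ⊢
    have h1 : (kill (K := K) n (j + 1)).comp (kill (K := K) n j) = kill (K := K) n (j + 1) := by
      apply MvPolynomial.algHom_ext
      intro i
      simp only [kill, AlgHom.comp_apply, aeval_X]
      split_ifs with h2 h3 h4
      · simp
      · omega
      · simp only [aeval_X, if_pos h4]
      · simp only [aeval_X, if_neg h4]
    rw [← h1, AlgHom.comp_apply, hf, map_zero]
  · refine ⟨X ⟨j, hj⟩, ?_, ?_⟩
    · rw [RingHom.mem_ker]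
      simp [kill]
    · rw [RingHom.mem_ker]
      simp [kill]

lemma le_height_kill {n : ℕ} : ∀ j ≤ n, (j : ℕ∞) ≤ (RingHom.ker (kill (K := K) n j)).height := by
  intro j
  induction j with
  | zero => intro _; simp
  | succ j ih =>
    intro hj
    have h1 := ih (by omega)
    have hp1 : (RingHom.ker (kill (K := K) n j)).IsPrime := RingHom.ker_isPrime _
    have hp2 : (RingHom.ker (kill (K := K) n (j + 1))).IsPrime := RingHom.ker_isPrime _
    have h2 := Ideal.height_add_one_le_of_lt_of_isPrime (kill_ker_lt (K := K) (n := n) (j := j)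
      (by omega))
    push_cast
    exact (add_le_add_left h1 1).trans h2

/-- Polynomials vanishing at the origin, fewer than the number of variables, have another
common zero. -/
theorem exists_zero [IsAlgClosed K] {n r : ℕ} (hr : r < n)
    (q : Fin r → MvPolynomial (Fin n) K) (hq : ∀ i, aeval (0 : Fin n → K) (q i) = 0) :
    ∃ x : Fin n → K, x ≠ 0 ∧ ∀ i, aeval x (q i) = 0 := by
  by_contra hcon
  push Not at hcon
  set I : Ideal (MvPolynomial (Fin n) K) := Ideal.span (Set.range q) with hI
  have hz : zeroLocus K I = {0} := by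
    ext x
    rw [mem_zeroLocus_iff, Set.mem_singleton_iff]
    constructor
    · intro h
      by_contra hx
      obtain ⟨i, hi⟩ := hcon x hx
      exact hi (h _ (Ideal.subset_span ⟨i, rfl⟩))
    · rintro rfl p hp
      have hle : I ≤ RingHom.ker (aeval (0 : Fin n → K) : MvPolynomial (Fin n) K →ₐ[K] K) := by
        rw [hI, Ideal.span_le]
        rintro _ ⟨i, rfl⟩
        exact hq i
      exact hle hp
  have hrad : I.radical = vanishingIdeal K {(0 : Fin n → K)} := by
    rw [← hz, vanishingIdeal_zeroLocus_eq_radical]
  have hm : vanishingIdeal K {(0 : Fin n → K)} = RingHom.ker (kill (K := K) n n) := by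
    ext f
    rw [mem_vanishingIdeal_iff, RingHom.mem_ker]
    simp only [Set.mem_singleton_iff, forall_eq]
    have h1 : (kill (K := K) n n) f = C (aeval (0 : Fin n → K) f) := by
      have h2 : kill (K := K) n n = (Algebra.ofId K (MvPolynomial (Fin n) K)).comp
          (aeval (0 : Fin n → K)) := by
        apply MvPolynomial.algHom_ext
        intro i
        simp [kill]
      rw [h2]
      rfl
    rw [h1, map_eq_zero_iff _ (C_injective (Fin n) K)]
  have hmp : (RingHom.ker (kill (K := K) n n)).IsPrime := RingHom.ker_isPrime _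
  have hmin : RingHom.ker (kill (K := K) n n) ∈ I.minimalPrimes := by
    refine ⟨⟨hmp, ?_⟩, ?_⟩
    · rw [← hm, ← hrad]
      exact Ideal.le_radical
    · rintro p ⟨hp, hIp⟩ _
      rw [← hm, ← hrad]
      exact hp.radical_le_iff.mpr hIp
  have h1 := Ideal.height_le_card_of_mem_minimalPrimes_span (Set.finite_range q) hmin
  have h2 := le_height_kill (K := K) (n := n) n le_rfl
  have h3 : (Set.range q).ncard ≤ r := by
    have := Set.ncard_image_le (f := q) (s := Set.univ) (Set.finite_univ)
    rw [Set.image_univ, Set.ncard_univ, Nat.card_eq_fintype_card, Fintype.card_fin] at this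
    exact this
  have h4 : (n : ℕ∞) ≤ (r : ℕ∞) := h2.trans (h1.trans (by exact_mod_cast h3))
  have h5 : n ≤ r := by exact_mod_cast h4
  omega

/-- Bilinear version. -/
theorem exists_isotropic [IsAlgClosed K] {W : Type*} [AddCommGroup W] [Module K W]
    [FiniteDimensional K W] {r : ℕ} (hr : r < Module.finrank K W) (B : Fin r → W →ₗ[K] W →ₗ[K] K) :
    ∃ w : W, w ≠ 0 ∧ ∀ i, B i w w = 0 := by
  set n := Module.finrank K W with hn
  let b := Module.finBasis K W
  obtain ⟨x, hx0, hx⟩ := exists_zero hr
    (fun i => ∑ j, ∑ l, C (B i (b j) (b l)) * X j * X l) (by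
      intro i
      simp)
  refine ⟨∑ j, x j • b j, ?_, ?_⟩
  · intro h
    apply hx0
    have := b.linearIndependent
    rw [Fintype.linearIndependent_iff] at this
    ext j
    exact this x h j
  · intro i
    have h1 := hx i
    rw [← h1]
    simp only [map_sum, map_smul, LinearMap.sum_apply, LinearMap.smul_apply, smul_eq_mul, map_mul,
      aeval_C, aeval_X, Algebra.algebraMap_self, RingHom.id_apply, Finset.mul_sum]
    rw [Finset.sum_comm]
    refine Finset.sum_congr rfl fun j _ => Finset.sum_congr rfl fun l _ => ?_
    ring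

end

end Pool.Agent.Lib.MP_0c183c_h75B
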