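import Pool.Agent.Lib.MP_0c183c_h75B.Minors

/-! # From a failure of the bounded order theorem to finite level data -/

set_option autoImplicit false

namespace Pool.Agent.Lib.MP_0c183c_h75B

open Pool.Agent.Lib.MP_0c183c_co Pool.Agent.Lib.MP_0c183c_co_P9W Matrix Finset

/-- `A` is `c`-generic: every vanishing minor of size at most `c` of `A⁻¹` vanishes for the inverse
of every nonsingular weighting of `G` over every field of characteristic two. -/
def CGen {n : ℕ} {K : Type} [Field K] (G : SimpleGraph (Fin n)) (A : Matrix (Fin n) (Fin n) K)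
    (c : ℕ) : Prop :=
  ∀ k ≤ c, ∀ a b : Fin k → Fin n, ((A⁻¹).submatrix a b).det = 0 →
    ∀ (L : Type) [Field L] [CharP L 2] (B : Matrix (Fin n) (Fin n) L), IsAltOn G B → B.det ≠ 0 →
      ((B⁻¹).submatrix a b).det = 0

section

variable {n m : ℕ} {K Ω : Type} [Field K] [Field Ω] [Algebra K Ω]

/-- The weights of the world `T`: the edges outside `T` get generic additional weights. -/
noncomputable def AT (e : Fin m × Bool → Fin n) (τ : Fin m → Ω) (A : Matrix (Fin n) (Fin n) K)
    (T : Finset (Fin m)) : Matrix (Fin n) (Fin n) Ω :=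
  addS e Tᶜ τ (A.map (algebraMap K Ω))

/-- The polynomial version. -/
noncomputable def AX (e : Fin m × Bool → Fin n) (A : Matrix (Fin n) (Fin n) K)
    (T : Finset (Fin m)) : Matrix (Fin n) (Fin n) (MvPolynomial (Fin m) K) :=
  addS e Tᶜ MvPolynomial.X (A.map MvPolynomial.C)

/-- Evaluation at `τ` as a ring homomorphism. -/
noncomputable def evh (K : Type) [Field K] [Algebra K Ω] (τ : Fin m → Ω) :
    MvPolynomial (Fin m) K →+* Ω :=
  (MvPolynomial.aeval τ : MvPolynomial (Fin m) K →ₐ[K] Ω).toRingHom

variable {e : Fin m × Bool → Fin n} {τ : Fin m → Ω} {A : Matrix (Fin n) (Fin n) K}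

lemma AX_eval (T : Finset (Fin m)) :
    (AX e A T).map (MvPolynomial.eval (0 : Fin m → K)) = A := by
  unfold AX
  rw [addS_map]
  have h1 : (fun i : Fin m => (MvPolynomial.eval (0 : Fin m → K)) (MvPolynomial.X i)) = 0 := by
    ext i
    simp
  have h2 : (A.map (MvPolynomial.C (σ := Fin m))).map (MvPolynomial.eval (0 : Fin m → K)) = A := by
    ext u v
    simp
  rw [h1, h2, addS_zero]

lemma AX_aeval (T : Finset (Fin m)) :
    (AX e A T).map (evh K τ) = AT e τ A T := by
  unfold AX AT
  rw [addS_map]
  have h1 : (fun i : Fin m => evh K τ (MvPolynomial.X i)) = τ := by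
    ext i
    simp [evh]
  have h2 : (A.map (MvPolynomial.C (σ := Fin m))).map (evh K τ) = A.map (algebraMap K Ω) := by
    ext u v
    simp [evh]
  rw [h1, h2]

lemma AT_det (hτ : AlgebraicIndependent K τ) (hdet : A.det ≠ 0) (T : Finset (Fin m)) :
    (AT e τ A T).det ≠ 0 := by
  intro h
  rw [← AX_aeval T, ← RingHom.mapMatrix_apply, ← RingHom.map_det] at h
  have h1 : (AX e A T).det = 0 := by
    apply hτ
    rw [map_zero]
    exact h
  have h2 : (MvPolynomial.eval (0 : Fin m → K)) (AX e A T).det = A.det := by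
    rw [RingHom.map_det, RingHom.mapMatrix_apply, AX_eval]
  rw [h1, map_zero] at h2
  exact hdet h2.symm

/-- Minors of `P T` of size at most `c` vanish iff they vanish at `y`. -/
lemma AT_minor [CharP Ω 2] (hτ : AlgebraicIndependent K τ) {G : SimpleGraph (Fin n)}
    (hA : IsAltOn G A) (hdet : A.det ≠ 0) {c : ℕ} (hgen : CGen G A c)
    (he : Function.Injective e) (hadj : ∀ i, G.Adj (e (i, false)) (e (i, true)))
    (T : Finset (Fin m)) {k : ℕ} (hk : k ≤ c) (a b : Fin k → Fin n) :
    (((AT e τ A T)⁻¹).submatrix a b).det = 0 ↔ ((A⁻¹).submatrix a b).det = 0 := by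
  constructor
  · intro h
    rw [← AX_aeval T, minor_iff _ _ (by rw [AX_aeval]; exact AT_det hτ hdet T)] at h
    have h1 : ((AX e A T).adjugate.submatrix a b).det = 0 := by
      apply hτ
      rw [map_zero]
      exact h
    have h2 := minor_iff (MvPolynomial.eval (0 : Fin m → K)) (AX e A T)
      (by rw [AX_eval]; exact hdet) a b
    rw [AX_eval] at h2
    rw [h2, h1, map_zero]
  · intro h
    refine hgen k hk a b h Ω (AT e τ A T) ?_ (AT_det hτ hdet T)
    have hA' : IsAltOn G (A.map (algebraMap K Ω)) := by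
      refine ⟨fun u v => ?_, fun v => ?_, fun u v huv => ?_⟩
      · simp only [Matrix.map_apply, hA.symm u v]
      · simp only [Matrix.map_apply, hA.diag v, map_zero]
      · apply hA.supp
        intro h0
        apply huv
        simp only [Matrix.map_apply, h0, map_zero]
    exact hA'.addS he hadj _ _

end

end Pool.Agent.Lib.MP_0c183c_h75B
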